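import Pool.Agent.H36.SplitDefs

namespace Pool.Agent.H36.Split

open Finset

/-- length of an interval -/
abbrev len (I : ℝ × ℝ) : ℝ := I.2 - I.1

lemma ratios_finite (P : Finset (ℝ × ℝ)) :
    {r : ℝ | ∃ I ∈ P, ∃ J ∈ P, r = (I.2 - I.1) / (J.2 - J.1)}.Finite := by
  have : {r : ℝ | ∃ I ∈ P, ∃ J ∈ P, r = (I.2 - I.1) / (J.2 - J.1)} =
      ((P ×ˢ P).image (fun p => (p.1.2 - p.1.1) / (p.2.2 - p.2.1)) : Finset ℝ) := by
    ext r
    rw [coe_image, Set.mem_image]
    constructor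
    · rintro ⟨I, hI, J, hJ, rfl⟩
      exact ⟨(I, J), by simp [hI, hJ], rfl⟩
    · rintro ⟨⟨I, J⟩, h, rfl⟩
      rw [mem_coe, mem_product] at h
      exact ⟨I, h.1, J, h.2, rfl⟩
  rw [this]
  exact Finset.finite_toSet _

lemma ratio_le_disc {P : Finset (ℝ × ℝ)} {I J : ℝ × ℝ} (hI : I ∈ P) (hJ : J ∈ P) :
    len I / len J ≤ disc P :=
  le_csSup (ratios_finite P).bddAbove ⟨I, hI, J, hJ, rfl⟩

lemma len_le_disc_mul {P : Finset (ℝ × ℝ)} (hP : IsPartition P) {I J : ℝ × ℝ} (hI : I ∈ P)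
    (hJ : J ∈ P) : len I ≤ disc P * len J := by
  have hJ' : 0 < len J := by have := hP.pos J hJ; simp only [len]; linarith
  have := ratio_le_disc hI hJ
  rwa [div_le_iff₀ hJ'] at this

lemma disc_le {P : Finset (ℝ × ℝ)} (hP : IsPartition P) (hne : P.Nonempty) {r : ℝ}
    (h : ∀ I ∈ P, ∀ J ∈ P, len I ≤ r * len J) : disc P ≤ r := by
  obtain ⟨I, hI⟩ := hne
  apply csSup_le
  · exact ⟨_, I, hI, I, hI, rfl⟩
  · rintro x ⟨I, hI, J, hJ, rfl⟩
    have hJ' : 0 < len J := by have := hP.pos J hJ; simp only [len]; linarith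
    rw [div_le_iff₀ hJ']
    exact h I hI J hJ

lemma one_le_disc {P : Finset (ℝ × ℝ)} (hP : IsPartition P) (hne : P.Nonempty) : 1 ≤ disc P := by
  obtain ⟨I, hI⟩ := hne
  have h := ratio_le_disc hI hI
  have hI' : 0 < len I := by have := hP.pos I hI; simp only [len]; linarith
  rwa [div_self hI'.ne'] at h

lemma discs_finite (S : ℕ → Finset (ℝ × ℝ)) (n : ℕ) :
    {r : ℝ | ∃ t, 1 ≤ t ∧ t ≤ n ∧ r = disc (S t)}.Finite := by
  have : {r : ℝ | ∃ t, 1 ≤ t ∧ t ≤ n ∧ r = disc (S t)} =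
      ((Finset.Icc 1 n).image (fun t => disc (S t)) : Finset ℝ) := by
    ext r
    rw [coe_image, Set.mem_image]
    constructor
    · rintro ⟨t, h1, h2, rfl⟩
      exact ⟨t, by simp [h1, h2], rfl⟩
    · rintro ⟨t, h, rfl⟩
      rw [mem_coe, Finset.mem_Icc] at h
      exact ⟨t, h.1, h.2, rfl⟩
  rw [this]
  exact Finset.finite_toSet _

lemma disc_le_discUpTo {S : ℕ → Finset (ℝ × ℝ)} {n t : ℕ} (h1 : 1 ≤ t) (h2 : t ≤ n) :
    disc (S t) ≤ discUpTo S n :=
  le_csSup (discs_finite S n).bddAbove ⟨t, h1, h2, rfl⟩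

lemma discUpTo_le {S : ℕ → Finset (ℝ × ℝ)} {n : ℕ} (hn : 1 ≤ n) {r : ℝ}
    (h : ∀ t, 1 ≤ t → t ≤ n → disc (S t) ≤ r) : discUpTo S n ≤ r := by
  apply csSup_le
  · exact ⟨_, 1, le_rfl, hn, rfl⟩
  · rintro x ⟨t, h1, h2, rfl⟩
    exact h t h1 h2

lemma discUpTo_mono {S : ℕ → Finset (ℝ × ℝ)} {m n : ℕ} (hm : 1 ≤ m) (h : m ≤ n) :
    discUpTo S m ≤ discUpTo S n :=
  discUpTo_le hm fun _ h1 h2 => disc_le_discUpTo h1 (h2.trans h)

lemma discUpTo_mul_len {n : ℕ} {S : ℕ → Finset (ℝ × ℝ)} (hS : IsStrategy n S) {t : ℕ}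
    (h1 : 1 ≤ t) (h2 : t ≤ n) {I J : ℝ × ℝ} (hI : I ∈ S t) (hJ : J ∈ S t) :
    len I ≤ discUpTo S n * len J := by
  have hJ' : 0 < len J := by
    have := (hS.part t h1 h2).pos J hJ; simp only [len]; linarith
  calc len I ≤ disc (S t) * len J := len_le_disc_mul (hS.part t h1 h2) hI hJ
    _ ≤ discUpTo S n * len J := by
      apply mul_le_mul_of_nonneg_right (disc_le_discUpTo h1 h2) hJ'.le

/-- If all intervals at time `t` have length at most `M`, then all intervals at time `t+1` have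
length at most `(r/2) M`. -/
lemma step_shrink {n : ℕ} {S : ℕ → Finset (ℝ × ℝ)} (hS : IsStrategy n S) {t : ℕ}
    (h1 : 1 ≤ t) (h2 : t < n) {M : ℝ} (hM : ∀ I ∈ S t, len I ≤ M) :
    ∀ I ∈ S (t + 1), len I ≤ discUpTo S n / 2 * M := by
  intro I hI
  obtain ⟨a, b, c, hac, hcb, hab, hQ⟩ := hS.cut t h1 h2
  have hr : 1 ≤ discUpTo S n := by
    have hne : (S t).Nonempty := ⟨_, hab⟩
    exact (one_le_disc (hS.part t h1 h2.le) hne).trans (disc_le_discUpTo h1 h2.le)
  have hM' : b - a ≤ M := hM _ hab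
  have m1 : (a, c) ∈ S (t + 1) := by rw [hQ]; simp
  have m2 : (c, b) ∈ S (t + 1) := by rw [hQ]; simp
  have e1 := discUpTo_mul_len hS (by omega) (by omega : t + 1 ≤ n) hI m1
  have e2 := discUpTo_mul_len hS (by omega) (by omega : t + 1 ≤ n) hI m2
  simp only [len] at e1 e2 ⊢
  nlinarith

lemma iter_shrink {n : ℕ} {S : ℕ → Finset (ℝ × ℝ)} (hS : IsStrategy n S) {t : ℕ}
    (h1 : 1 ≤ t) {M : ℝ} (hM : ∀ I ∈ S t, len I ≤ M) (j : ℕ) (h2 : t + j ≤ n) :
    ∀ I ∈ S (t + j), len I ≤ (discUpTo S n / 2) ^ j * M := by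
  induction j with
  | zero => simpa using hM
  | succ j ih =>
    have := step_shrink hS (t := t + j) (by omega) (by omega) (ih (by omega))
    intro I hI
    have h := this I hI
    rw [pow_succ]
    linarith [h, (by ring : (discUpTo S n / 2) * ((discUpTo S n / 2) ^ j * M) =
      (discUpTo S n / 2) ^ j * (discUpTo S n / 2) * M)]

/-- at least `card - j` of the intervals survive `j` cuts -/
lemma survive {n : ℕ} {S : ℕ → Finset (ℝ × ℝ)} (hS : IsStrategy n S) {t : ℕ}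
    (h1 : 1 ≤ t) (j : ℕ) (h2 : t + j ≤ n) :
    t ≤ (S t ∩ S (t + j)).card + j := by
  induction j with
  | zero => simp [hS.card t h1 (by omega)]
  | succ j ih =>
    have ih := ih (by omega)
    obtain ⟨a, b, c, hac, hcb, hab, hQ⟩ := hS.cut (t + j) (by omega) (by omega)
    have hsub : (S t ∩ S (t + j)).erase (a, b) ⊆ S t ∩ S (t + (j + 1)) := by
      intro I hI
      rw [Finset.mem_erase, Finset.mem_inter] at hI
      rw [Finset.mem_inter]
      refine ⟨hI.2.1, ?_⟩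
      have : S (t + (j + 1)) = S (t + j + 1) := rfl
      rw [this, hQ]
      simp only [Finset.mem_insert, Finset.mem_erase]
      right; right
      exact ⟨hI.1, hI.2.2⟩
    have hc := Finset.card_le_card hsub
    have hc2 := Finset.pred_card_le_card_erase (s := S t ∩ S (t + j)) (a := (a, b))
    omega

/-- the lower bound `r ^ k ≥ 2 ^ (k-1)` -/
lemma pow_lower {n k : ℕ} {S : ℕ → Finset (ℝ × ℝ)} (hS : IsStrategy n S) (hk : 1 ≤ k)
    (hn : 2 * k - 1 ≤ n) : (2 : ℝ) ^ (k - 1) ≤ discUpTo S n ^ k := by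
  have hcard := hS.card k hk (by omega)
  have hne : (S k).Nonempty := by rw [← Finset.card_pos]; omega
  obtain ⟨A, hA, hAmax⟩ := Finset.exists_max_image (S k) len hne
  have hsurv := survive hS hk (k - 1) (by omega)
  have hne2 : (S k ∩ S (k + (k - 1))).Nonempty := by
    rw [← Finset.card_pos]; omega
  obtain ⟨J, hJ⟩ := hne2
  rw [Finset.mem_inter] at hJ
  have hlow := discUpTo_mul_len hS hk (by omega) hA hJ.1
  have hup := iter_shrink hS hk hAmax (k - 1) (by omega) J hJ.2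
  have hApos : 0 < len A := by
    have := (hS.part k hk (by omega)).pos A hA; simp only [len]; linarith
  have hr : 1 ≤ discUpTo S n :=
    (one_le_disc (hS.part k hk (by omega)) hne).trans (disc_le_discUpTo hk (by omega))
  have h3 : len A ≤ discUpTo S n * ((discUpTo S n / 2) ^ (k - 1) * len A) :=
    hlow.trans (mul_le_mul_of_nonneg_left hup (by linarith))
  have h4 : 1 ≤ discUpTo S n * (discUpTo S n / 2) ^ (k - 1) := by
    by_contra hcon
    push Not at hcon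
    have : discUpTo S n * ((discUpTo S n / 2) ^ (k - 1) * len A) < 1 * len A := by
      rw [← mul_assoc]
      exact mul_lt_mul_of_pos_right hcon hApos
    linarith
  rw [div_pow, ← mul_div_assoc, le_div_iff₀ (by positivity), one_mul, ← pow_succ'] at h4
  rwa [show k - 1 + 1 = k by omega] at h4

lemma lower {n : ℕ} {S : ℕ → Finset (ℝ × ℝ)} (hS : IsStrategy n S) (hn : 1 ≤ n) :
    (2 : ℝ) ^ (1 - 1 / ((⌈(n : ℝ) / 2⌉₊ : ℕ) : ℝ)) ≤ discUpTo S n := by
  set k := ⌈(n : ℝ) / 2⌉₊ with hk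
  have hk1 : 1 ≤ k := Nat.one_le_iff_ne_zero.mpr (by
    rw [hk]; intro h
    rw [Nat.ceil_eq_zero] at h
    have : (1 : ℝ) ≤ n := by exact_mod_cast hn
    linarith)
  have hkn : 2 * k - 1 ≤ n := by
    have h := Nat.ceil_lt_add_one (show (0 : ℝ) ≤ (n : ℝ) / 2 by positivity)
    rw [← hk] at h
    have h2 : (2 * k : ℝ) < n + 2 := by linarith
    have h3 : 2 * k < n + 2 := by exact_mod_cast h2
    omega
  have hp := pow_lower hS hk1 hkn
  have hr : 0 ≤ discUpTo S n := by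
    have hne : (S 1).Nonempty := by
      rw [← Finset.card_pos, hS.card 1 le_rfl hn]; exact one_pos
    linarith [(one_le_disc (hS.part 1 le_rfl hn) hne).trans (disc_le_discUpTo le_rfl hn)]
  have hk0 : (k : ℝ) ≠ 0 := by positivity
  have e : (2 : ℝ) ^ (1 - 1 / (k : ℝ)) = ((2 : ℝ) ^ (k - 1)) ^ (1 / (k : ℝ)) := by
    rw [← Real.rpow_natCast 2 (k - 1), ← Real.rpow_mul (by norm_num)]
    congr 1
    rw [Nat.cast_sub hk1]
    field_simp
    push_cast
    ring
  rw [e]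
  calc ((2 : ℝ) ^ (k - 1)) ^ (1 / (k : ℝ)) ≤ (discUpTo S n ^ k) ^ (1 / (k : ℝ)) :=
        Real.rpow_le_rpow (by positivity) hp (by positivity)
    _ = discUpTo S n := by
      rw [← Real.rpow_natCast, ← Real.rpow_mul hr]
      rw [mul_one_div_cancel hk0, Real.rpow_one]

end Pool.Agent.H36.Split
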