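import Mathlib

/-!
Definitions for interval splitting strategies.
-/

namespace Pool.Agent.H36.Split

/-- A partition of `[0,1]` into finitely many closed intervals of positive length with pairwise
disjoint interiors. It is recorded as the finite set of the pairs `(a, b)` of end points of its
intervals `[a, b]`. -/
structure IsPartition (P : Finset (ℝ × ℝ)) : Prop where
  pos : ∀ I ∈ P, I.1 < I.2
  disj : ∀ I ∈ P, ∀ J ∈ P, I ≠ J → Disjoint (Set.Ioo I.1 I.2) (Set.Ioo J.1 J.2)
  union : (⋃ I ∈ P, Set.Icc I.1 I.2) = Set.Icc (0 : ℝ) 1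

/-- The largest ratio of the lengths of two intervals of `P`. -/
noncomputable def disc (P : Finset (ℝ × ℝ)) : ℝ :=
  sSup {r : ℝ | ∃ I ∈ P, ∃ J ∈ P, r = (I.2 - I.1) / (J.2 - J.1)}

/-- `Q` arises from `P` by cutting one interval `[a, b]` of `P` at an inner point `c`. -/
def Cuts (P Q : Finset (ℝ × ℝ)) : Prop :=
  ∃ a b c : ℝ, a < c ∧ c < b ∧ (a, b) ∈ P ∧
    Q = insert (a, c) (insert (c, b) (P.erase (a, b)))

/-- `S 1, ..., S n` is a strategy of length `n`: `S i` is a partition of `[0,1]` into exactly `i`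
intervals, and `S (i + 1)` arises from `S i` by cutting one interval into two. -/
structure IsStrategy (n : ℕ) (S : ℕ → Finset (ℝ × ℝ)) : Prop where
  part : ∀ i, 1 ≤ i → i ≤ n → IsPartition (S i)
  card : ∀ i, 1 ≤ i → i ≤ n → (S i).card = i
  cut : ∀ i, 1 ≤ i → i < n → Cuts (S i) (S (i + 1))

/-- `S 1, S 2, ...` is an infinite-length strategy. -/
structure IsInfStrategy (S : ℕ → Finset (ℝ × ℝ)) : Prop where
  part : ∀ i, 1 ≤ i → IsPartition (S i)
  card : ∀ i, 1 ≤ i → (S i).card = i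
  cut : ∀ i, 1 ≤ i → Cuts (S i) (S (i + 1))

/-- The maximum of `disc (S t)` over `1 ≤ t ≤ n`. -/
noncomputable def discUpTo (S : ℕ → Finset (ℝ × ℝ)) (n : ℕ) : ℝ :=
  sSup {r : ℝ | ∃ t, 1 ≤ t ∧ t ≤ n ∧ r = disc (S t)}

/-- `disc(n)`: the infimum (it is a minimum) of `discUpTo S n` over all strategies of
length `n`. -/
noncomputable def discMin (n : ℕ) : ℝ :=
  sInf {r : ℝ | ∃ S : ℕ → Finset (ℝ × ℝ), IsStrategy n S ∧ r = discUpTo S n}

end Pool.Agent.H36.Split
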