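import Pool.Agent.H36.SplitLimsupMain

namespace Pool.Agent.H36.Split

open Finset Filter

/-- From some time on, every cut produces two intervals which are at most as long as each interval
left uncut. -/
def NewShortest (S : ℕ → Finset (ℝ × ℝ)) : Prop :=
  ∃ T : ℕ, ∀ t, T ≤ t → ∀ I ∈ S (t + 1), I ∉ S t → ∀ K ∈ S (t + 1), K ∈ S t →
    I.2 - I.1 ≤ K.2 - K.1

/-- Under `NewShortest` the intervals are eventually cut first-in-first-out. -/
lemma fifo_indices {S : ℕ → Finset (ℝ × ℝ)} {x : ℕ → ℝ} {τ σ : ℕ → ℕ} {J : ℕ → ℝ × ℝ}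
    (hF : NewShortest S) (hC : CutSeq x τ σ)
    (hJ : ∀ t, 1 ≤ t → J t ∈ S t ∧ x t = len (J t))
    (hS : ∀ t, 1 ≤ t → ∀ I, I ∈ S (t + 1) ↔ (I ∈ S t ∧ I ≠ J t) ∨ I = J (τ t) ∨ I = J (σ t))
    (hn : ∀ t, 1 ≤ t → J (τ t) ∉ S t ∧ J (σ t) ∉ S t) :
    ∃ T, 1 ≤ T ∧ ∀ t, T ≤ t → τ t = 2 * t ∧ σ t = 2 * t + 1 := by
  classical
  obtain ⟨T, hF⟩ := hF
  have hσ1 : ∀ t, 1 ≤ t → 1 ≤ σ t := fun t ht => by
    have := hC.lt1 t ht; have := hC.lt2 t ht; omega
  have hτ1 : ∀ t, 1 ≤ t → 1 ≤ τ t := fun t ht => by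
    have := hC.lt1 t ht; omega
  -- a piece stays until it is cut
  have hstay : ∀ s, 1 ≤ s → ∀ t, 1 ≤ t → J s ∈ S (t + 1) → ∀ p, t + 1 ≤ p → p ≤ s →
      J s ∈ S p := by
    intro s hs t ht h0 p hp
    induction p, hp using Nat.le_induction with
    | base => exact fun _ => h0
    | succ p hp ih =>
      intro hpσ
      refine (hS p (by omega) _).mpr (Or.inl ⟨ih (by omega), ?_⟩)
      intro he
      have e1 := (hJ s hs).2
      have e2 := (hJ p (by omega)).2
      have e3 := hC.lt_of_lt (i := p) (j := s) (by omega) (by omega)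
      rw [e1, e2, he] at e3
      exact lt_irrefl _ e3
  have hstayσ : ∀ t, 1 ≤ t → ∀ p, t + 1 ≤ p → p ≤ σ t → J (σ t) ∈ S p := fun t ht =>
    hstay (σ t) (hσ1 t ht) t ht ((hS t ht _).mpr (Or.inr (Or.inr rfl)))
  have hstayτ : ∀ t, 1 ≤ t → ∀ p, t + 1 ≤ p → p ≤ τ t → J (τ t) ∈ S p := fun t ht =>
    hstay (τ t) (hτ1 t ht) t ht ((hS t ht _).mpr (Or.inr (Or.inl rfl)))
  -- pieces of different intervals are different
  have hdiff : ∀ t p, 1 ≤ t → t < p → τ t ≠ τ p ∧ τ t ≠ σ p ∧ σ t ≠ τ p ∧ σ t ≠ σ p := by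
    intro t p ht htp
    have n1 := hn p (by omega)
    have l1 := hC.lt1 p (by omega)
    have l2 := hC.lt2 p (by omega)
    refine ⟨fun he => ?_, fun he => ?_, fun he => ?_, fun he => ?_⟩
    · have := hstayτ t ht p (by omega) (by omega)
      rw [he] at this
      exact n1.1 this
    · have := hstayτ t ht p (by omega) (by omega)
      rw [he] at this
      exact n1.2 this
    · have := hstayσ t ht p (by omega) (by omega)
      rw [he] at this
      exact n1.1 this
    · have := hstayσ t ht p (by omega) (by omega)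
      rw [he] at this
      exact n1.2 this
  have hord : ∀ t p, 1 ≤ t → T ≤ p → t < p → σ t < τ p := by
    intro t p ht hTp htp
    have hp1 := hC.lt1 p (by omega)
    by_cases h : σ t ≤ p
    · omega
    · have m1 : J (σ t) ∈ S p := hstayσ t ht p (by omega) (by omega)
      have m2 : J (σ t) ∈ S (p + 1) := hstayσ t ht (p + 1) (by omega) (by omega)
      have m3 : J (τ p) ∈ S (p + 1) := (hS p (by omega) _).mpr (Or.inr (Or.inl rfl))
      have m4 := (hn p (by omega)).1
      have h1 := hF p hTp _ m3 m4 _ m2 m1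
      have e1 := (hJ (σ t) (hσ1 t ht)).2
      have e2 := (hJ (τ p) (by omega)).2
      have h2 : x (τ p) ≤ x (σ t) := by
        rw [e1, e2]
        exact h1
      have h3 : σ t ≤ τ p := by
        by_contra hcon
        have := hC.lt_of_lt (i := τ p) (j := σ t) (by omega) (by omega)
        linarith
      rcases h3.lt_or_eq with h4 | h4
      · exact h4
      · exact absurd h4 (hdiff t p ht htp).2.2.1
  refine ⟨max T 1, le_max_right _ _, fun t ht => ?_⟩
  have hTt : T ≤ t := (le_max_left _ _).trans ht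
  have ht1 : 1 ≤ t := (le_max_right _ _).trans ht
  have l1 := hC.lt1 t ht1
  have l2 := hC.lt2 t ht1
  set A := (Finset.Icc 1 (t - 1)).image τ with hA
  set B := (Finset.Icc 1 (t - 1)).image σ with hB
  have cA : A.card = t - 1 := by
    rw [hA, Finset.card_image_of_injOn, Nat.card_Icc]
    · omega
    · intro p hp p' hp' he
      rw [Finset.coe_Icc, Set.mem_Icc] at hp hp'
      rcases lt_trichotomy p p' with h | h | h
      · exact absurd he (hdiff p p' (by omega) h).1
      · exact h
      · exact absurd he.symm (hdiff p' p (by omega) h).1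
  have cB : B.card = t - 1 := by
    rw [hB, Finset.card_image_of_injOn, Nat.card_Icc]
    · omega
    · intro p hp p' hp' he
      rw [Finset.coe_Icc, Set.mem_Icc] at hp hp'
      rcases lt_trichotomy p p' with h | h | h
      · exact absurd he (hdiff p p' (by omega) h).2.2.2
      · exact h
      · exact absurd he.symm (hdiff p' p (by omega) h).2.2.2
  have cAB : Disjoint A B := by
    rw [Finset.disjoint_left]
    intro s hs hs'
    rw [hA, Finset.mem_image] at hs
    rw [hB, Finset.mem_image] at hs'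
    obtain ⟨p, hp, rfl⟩ := hs
    obtain ⟨p', hp', he⟩ := hs'
    rw [Finset.mem_Icc] at hp hp'
    rcases lt_trichotomy p p' with h | h | h
    · exact (hdiff p p' (by omega) h).2.1 he.symm
    · subst h
      have := hC.lt2 p (by omega)
      omega
    · exact (hdiff p' p (by omega) h).2.2.1 he
  have hAB : A ∪ B = Finset.Ico 2 (τ t) := by
    ext s
    rw [Finset.mem_union, hA, hB, Finset.mem_image, Finset.mem_image, Finset.mem_Ico]
    constructor
    · rintro (⟨p, hp, rfl⟩ | ⟨p, hp, rfl⟩)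
      · rw [Finset.mem_Icc] at hp
        have h1 := hord p t (by omega) hTt (by omega)
        have h2 := hC.lt2 p (by omega)
        have h3 := hC.lt1 p (by omega)
        omega
      · rw [Finset.mem_Icc] at hp
        have h1 := hord p t (by omega) hTt (by omega)
        have h2 := hC.lt2 p (by omega)
        have h3 := hC.lt1 p (by omega)
        omega
    · rintro ⟨h1, h2⟩
      obtain ⟨p, hp, hps, hpe⟩ := hC.surj s h1
      have hpt : p ≤ t - 1 := by
        by_contra hcon
        have hpt : t ≤ p := by omega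
        have k2 := hC.lt2 p hp
        rcases hpt.lt_or_eq with h | h
        · have k1 := hord t p ht1 (by omega) h
          rcases hpe with hpe | hpe <;> omega
        · subst h
          rcases hpe with hpe | hpe <;> omega
      rcases hpe with hpe | hpe
      · exact Or.inl ⟨p, Finset.mem_Icc.mpr ⟨hp, hpt⟩, hpe.symm⟩
      · exact Or.inr ⟨p, Finset.mem_Icc.mpr ⟨hp, hpt⟩, hpe.symm⟩
  have hcard := Finset.card_union_of_disjoint cAB
  rw [hAB, cA, cB, Nat.card_Ico] at hcard
  have hτ : τ t = 2 * t := by omega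
  refine ⟨hτ, ?_⟩
  by_contra hne
  obtain ⟨p, hp, hps, hpe⟩ := hC.surj (2 * t + 1) (by omega)
  rcases lt_trichotomy p t with h | h | h
  · have h1 := hord p t hp hTt h
    have h2 := hC.lt2 p hp
    rcases hpe with hpe | hpe <;> omega
  · subst h
    rcases hpe with hpe | hpe <;> omega
  · have := hord t p ht1 (by omega) h
    have := hC.lt2 p hp
    rcases hpe with hpe | hpe <;> omega

/-- Consecutive logarithmic gaps at least `b` from index `T` up to index `M`. -/
def Gap (T : ℕ) (y : ℕ → ℝ) (b : ℝ) (M : ℕ) : Prop :=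
  ∀ s, T ≤ s → s + 1 ≤ M → b ≤ y (s + 1) - y s

lemma exp_split {x : ℕ → ℝ} (hpos : ∀ t, 1 ≤ t → 0 < x t) {b : ℝ} {s : ℕ} (hs : 1 ≤ s)
    (h : b ≤ -Real.log (x (s + 1)) - -Real.log (x s)) : x (s + 1) ≤ Real.exp (-b) * x s := by
  have p1 := hpos s hs
  have p2 := hpos (s + 1) (by omega)
  have e1 : Real.exp (Real.log (x (s + 1))) ≤ Real.exp (-b + Real.log (x s)) :=
    Real.exp_le_exp.mpr (by linarith)
  rwa [Real.exp_add, Real.exp_log p1, Real.exp_log p2] at e1

lemma gap_down {x : ℕ → ℝ} {T : ℕ} (hT : 1 ≤ T) (hpos : ∀ t, 1 ≤ t → 0 < x t)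
    (hsp : ∀ t, T ≤ t → x t = x (2 * t) + x (2 * t + 1)) (j : ℕ) :
    ∀ (b : ℝ) (M M' : ℕ), Gap T (fun t => -Real.log (x t)) b M → 2 ^ j * (M' + 1) ≤ M →
      Gap T (fun t => -Real.log (x t)) (2 ^ j * b) M' := by
  induction j with
  | zero =>
    intro b M M' hG hM s hs hs'
    have := hG s hs (by simp only [pow_zero, one_mul] at hM; omega)
    simpa using this
  | succ j ih =>
    intro b M M' hG hM s hs hs'
    have hG' := ih b M (2 * M' + 1) hG (by rw [pow_succ] at hM; nlinarith)
    have g1 := exp_split hpos (by omega) (hG' (2 * s) (by omega) (by omega))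
    have g2 := exp_split hpos (by omega) (hG' (2 * s + 1) (by omega) (by omega))
    have g3 := exp_split hpos (by omega) (hG' (2 * s + 1 + 1) (by omega) (by omega))
    have p0 := hpos (2 * s) (by omega)
    have p1 := hpos (2 * s + 1) (by omega)
    have p2 := hpos (s + 1) (by omega)
    have p3 := hpos s (by omega)
    set E := Real.exp (-(2 ^ j * b)) with hE
    have hE0 : 0 < E := Real.exp_pos _
    have e1 := hsp s hs
    have e2 := hsp (s + 1) (by omega)
    have h4 : x (s + 1) ≤ E ^ 2 * x s := by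
      rw [e1, e2, show 2 * (s + 1) = 2 * s + 1 + 1 by ring]
      have k1 : x (2 * s + 1 + 1) ≤ E * (E * x (2 * s)) :=
        g2.trans (mul_le_mul_of_nonneg_left g1 hE0.le)
      have k2 : x (2 * s + 1 + 1 + 1) ≤ E * (E * x (2 * s + 1)) :=
        g3.trans (mul_le_mul_of_nonneg_left g2 hE0.le)
      linarith
    have h5 := Real.log_le_log p2 h4
    rw [Real.log_mul (by positivity) p3.ne', Real.log_pow, hE, Real.log_exp] at h5
    show 2 ^ (j + 1) * b ≤ -Real.log (x (s + 1)) - -Real.log (x s)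
    rw [pow_succ]
    push_cast at h5
    linarith

/-- The core estimate. -/
lemma fifo_core {x r : ℕ → ℝ} {T : ℕ} (hT : 1 ≤ T) (hpos : ∀ t, 1 ≤ t → 0 < x t)
    (hanti : ∀ t, 1 ≤ t → x (t + 1) < x t)
    (hsp : ∀ t, T ≤ t → x t = x (2 * t) + x (2 * t + 1))
    (hr : ∀ m n, 1 ≤ m → m ≤ n → r m ≤ r n)
    (hx : ∀ t n, T ≤ t → t + 1 ≤ n → x (t + 1) ≤ r n * x (2 * t + 1))
    {g : ℝ} (hg : 3 / 2 * Real.log 2 < g) :
    ∀ᶠ n : ℕ in atTop, 2 * Real.exp (-(g / n)) < r n := by
  by_contra hcon
  rw [not_eventually] at hcon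
  simp only [not_lt] at hcon
  have hL := log_two_pos
  have hg0 : 0 < g := by linarith
  -- choose the resolution
  obtain ⟨L, hLq⟩ : ∃ L : ℕ, 3 / 2 * Real.log 2 * (1 + (1 / 2) ^ L) < g := by
    obtain ⟨L, hL'⟩ := exists_pow_lt_of_lt_one (show 0 < (g - 3 / 2 * Real.log 2) /
      (3 / 2 * Real.log 2) by apply div_pos <;> linarith) (show (1 / 2 : ℝ) < 1 by norm_num)
    refine ⟨L, ?_⟩
    rw [lt_div_iff₀ (by linarith)] at hL'
    linarith
  set g' := g / (1 + (1 / 2) ^ L) with hg'
  have hg'1 : 3 / 2 * Real.log 2 < g' := by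
    rw [hg', lt_div_iff₀ (by positivity)]
    exact hLq
  have hg'0 : 0 < g' := by linarith
  -- pigeonhole
  obtain ⟨q, hq, hqf⟩ : ∃ q ∈ Finset.Ico (2 ^ L) (2 ^ (L + 1)), ∃ᶠ n : ℕ in atTop,
      (r n ≤ 2 * Real.exp (-(g / n))) ∧ 2 ^ L ≤ n ∧ n / 2 ^ (Nat.log 2 n - L) = q := by
    by_contra hno
    push Not at hno
    have h1 : ∀ᶠ n : ℕ in atTop, ∀ q ∈ Finset.Ico (2 ^ L) (2 ^ (L + 1)),
        ¬ ((r n ≤ 2 * Real.exp (-(g / n))) ∧ 2 ^ L ≤ n ∧ n / 2 ^ (Nat.log 2 n - L) = q) := by
      rw [Filter.eventually_all_finset]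
      intro q hq
      filter_upwards [hno q hq] with n hn
      rintro ⟨h1, h2, h3⟩
      exact hn h1 h2 h3
    apply hcon
    filter_upwards [h1, eventually_ge_atTop (2 ^ L)] with n hn hnL
    intro hrn
    have hn0 : n ≠ 0 := by
      have : 0 < 2 ^ L := by positivity
      omega
    have hlog : L ≤ Nat.log 2 n := Nat.le_log_of_pow_le (by norm_num) hnL
    refine hn (n / 2 ^ (Nat.log 2 n - L)) ?_ ⟨hrn, hnL, rfl⟩
    rw [Finset.mem_Ico]
    constructor
    · rw [Nat.le_div_iff_mul_le (by positivity), ← pow_add]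
      rw [show L + (Nat.log 2 n - L) = Nat.log 2 n by omega]
      exact Nat.pow_log_le_self 2 hn0
    · rw [Nat.div_lt_iff_lt_mul (by positivity), ← pow_add]
      rw [show L + 1 + (Nat.log 2 n - L) = Nat.log 2 n + 1 by omega]
      exact Nat.lt_pow_succ_log_self (by norm_num) n
  rw [Finset.mem_Ico] at hq
  have hq1 : 1 ≤ q := le_trans Nat.one_le_two_pow hq.1
  have hB : ∀ B0 : ℕ, ∃ b, B0 ≤ b ∧ r (q * 2 ^ b) ≤ 2 * Real.exp (-(g' / ((q * 2 ^ b : ℕ) : ℝ))) := by
    intro B0
    obtain ⟨n, hn, hrn, hnL, hnq⟩ := (frequently_atTop.mp hqf) (2 ^ (B0 + L + 1))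
    set b := Nat.log 2 n - L with hb
    have hn0 : n ≠ 0 := by
      have : 0 < 2 ^ L := by positivity
      omega
    have hlog : B0 + L + 1 ≤ Nat.log 2 n := Nat.le_log_of_pow_le (by norm_num) hn
    refine ⟨b, by omega, ?_⟩
    have hle : q * 2 ^ b ≤ n := by
      rw [← hnq]
      exact Nat.div_mul_le_self n (2 ^ b)
    have hlt : n < (q + 1) * 2 ^ b := by
      rw [← hnq]
      have := Nat.lt_div_mul_add (a := n) (b := 2 ^ b) (by positivity)
      nlinarith
    have h1 := hr (q * 2 ^ b) n (Nat.one_le_iff_ne_zero.mpr (by positivity)) hle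
    refine h1.trans (hrn.trans ?_)
    apply mul_le_mul_of_nonneg_left _ (by norm_num)
    apply Real.exp_le_exp.mpr
    apply neg_le_neg
    have hqr : (2 : ℝ) ^ L ≤ q := by exact_mod_cast hq.1
    have hq0 : (0 : ℝ) < q := lt_of_lt_of_le (by positivity) hqr
    have h2b : (0 : ℝ) < 2 ^ b := by positivity
    have hn' : (0 : ℝ) < n := by
      have : 0 < n := Nat.pos_of_ne_zero hn0
      exact_mod_cast this
    rw [hg', div_div, div_le_div_iff₀ (by push_cast; positivity) hn']
    apply mul_le_mul_of_nonneg_left _ hg0.le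
    have h3 : (n : ℝ) < (q + 1) * 2 ^ b := by exact_mod_cast hlt
    have h4 : (1 : ℝ) ≤ q * (1 / 2) ^ L := by
      rw [one_div, inv_pow, ← div_eq_mul_inv, le_div_iff₀ (by positivity), one_mul]
      exact hqr
    push_cast
    nlinarith
  set y : ℕ → ℝ := fun t => -Real.log (x t) with hy
  -- the recursion
  have hrec : ∀ N : ℕ, ∀ b, r (q * 2 ^ b) ≤ 2 * Real.exp (-(g' / ((q * 2 ^ b : ℕ) : ℝ))) →
      Gap T y (4 / 3 * g' * (1 - (1 / 4) ^ N) / ((q * 2 ^ b : ℕ) : ℝ)) (q * 2 ^ b) := by
    intro N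
    induction N with
    | zero =>
      intro b _ s hs _
      have p1 := hpos s (by omega)
      have p2 := hpos (s + 1) (by omega)
      have h1 := Real.log_le_log p2 (hanti s (by omega)).le
      simp only [hy, pow_zero, sub_self, mul_zero, zero_div]
      linarith
    | succ N ih =>
      intro b hb s hs hs'
      obtain ⟨b', hb'1, hb'2⟩ := hB (b + 1)
      have hG := ih b' hb'2
      set m := q * 2 ^ b with hm
      have hm0 : (0 : ℝ) < (m : ℕ) := by
        have : 0 < m := by positivity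
        exact_mod_cast this
      obtain ⟨j, rfl⟩ : ∃ j, b' = b + 1 + j := ⟨b' - (b + 1), by omega⟩
      have hM : q * 2 ^ (b + 1 + j) = 2 ^ j * (2 * m) := by
        rw [hm, pow_add, pow_succ]; ring
      have hG2 := gap_down hT hpos hsp j _ _ (2 * m - 1) hG (by
        rw [hM]
        apply Nat.mul_le_mul_left
        have : 0 < m := by positivity
        omega)
      have h1 := hG2 (2 * s) (by omega) (by omega)
      have hval : (2 : ℝ) ^ j * (4 / 3 * g' * (1 - (1 / 4) ^ N) /
          ((q * 2 ^ (b + 1 + j) : ℕ) : ℝ)) = 4 / 3 * g' * (1 - (1 / 4) ^ N) / (2 * m) := by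
        rw [hM]
        push_cast
        have : (2 : ℝ) ^ j ≠ 0 := by positivity
        field_simp
      rw [hval] at h1
      -- first relation
      have p0 := hpos s (by omega)
      have p1 := hpos (s + 1) (by omega)
      have p2 := hpos (2 * s) (by omega)
      have p3 := hpos (2 * s + 1) (by omega)
      have e1 := (hx s m hs hs').trans (mul_le_mul_of_nonneg_right hb p3.le)
      have e2 := Real.log_le_log p1 e1
      rw [Real.log_mul (by positivity) p3.ne', Real.log_mul (by norm_num) (Real.exp_pos _).ne',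
        Real.log_exp] at e2
      have e3 : Real.log 2 + (Real.log (x (2 * s)) + Real.log (x (2 * s + 1))) / 2 ≤
          Real.log (x s) := by
        have k1 : x (2 * s) * x (2 * s + 1) * 4 ≤ x s ^ 2 := by
          rw [hsp s hs]
          nlinarith [sq_nonneg (x (2 * s) - x (2 * s + 1))]
        have k2 := Real.log_le_log (by positivity) k1
        rw [Real.log_mul (by positivity) (by norm_num), Real.log_mul p2.ne' p3.ne', Real.log_pow,
          show (4 : ℝ) = 2 ^ 2 by norm_num, Real.log_pow] at k2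
        push_cast at k2
        linarith
      simp only [hy] at h1 ⊢
      have e4 : 4 / 3 * g' * (1 - (1 / 4) ^ (N + 1)) / (m : ℝ) =
          g' / m + 4 / 3 * g' * (1 - (1 / 4) ^ N) / (2 * m) / 2 := by
        rw [pow_succ]
        field_simp
        ring
      rw [e4]
      linarith
  obtain ⟨N, hN⟩ := exists_pow_lt_of_lt_one (show 0 < (g' - 3 / 2 * Real.log 2) / g' by
    apply div_pos _ hg'0; linarith) (show (1 / 4 : ℝ) < 1 by norm_num)
  rw [lt_div_iff₀ hg'0] at hN
  obtain ⟨b, hb1, hb2⟩ := hB (T + 1)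
  have hG := hrec N b hb2
  obtain ⟨c, rfl⟩ : ∃ c, b = c + 1 := ⟨b - 1, by omega⟩
  set u := q * 2 ^ c with hu
  have huT : T ≤ u := by
    have h1 : c < 2 ^ c := Nat.lt_two_pow_self
    have h2 : 2 ^ c ≤ q * 2 ^ c := Nat.le_mul_of_pos_left _ hq1
    omega
  have hu1 : 1 ≤ u := hT.trans huT
  have hm : q * 2 ^ (c + 1) = 2 * u := by rw [hu, pow_succ]; ring
  rw [hm] at hG
  set w := 4 / 3 * g' * (1 - (1 / 4) ^ N) / ((2 * u : ℕ) : ℝ) with hw
  have hsum : ∀ k, k ≤ u → k * w ≤ y (u + k) - y u := by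
    intro k
    induction k with
    | zero => simp
    | succ k ih =>
      intro hk
      have h1 := ih (by omega)
      have h2 := hG (u + k) (by omega) (by omega)
      push_cast
      have h3 : u + (k + 1) = u + k + 1 := by ring
      rw [h3]
      linarith
  have h1 := hsum u le_rfl
  have h2 : y (u + u) - y u < Real.log 2 := by
    have p1 := hpos u hu1
    have p2 := hpos (2 * u) (by omega)
    have p3 := hpos (2 * u + 1) (by omega)
    have e1 := hsp u huT
    have e2 := hanti (2 * u) (by omega)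
    have e3 : x u < 2 * x (2 * u) := by linarith
    have e4 := Real.log_lt_log p1 e3
    rw [Real.log_mul (by norm_num) p2.ne'] at e4
    simp only [hy]
    rw [show u + u = 2 * u by ring]
    linarith
  have h3 : (u : ℝ) * w = 2 / 3 * g' * (1 - (1 / 4) ^ N) := by
    rw [hw]
    push_cast
    have : (u : ℝ) ≠ 0 := by positivity
    field_simp
    ring
  rw [h3] at h1
  nlinarith

/-- The lower bound for first-in-first-out strategies. -/
theorem fifo_lower {S : ℕ → Finset (ℝ × ℝ)} (hS : IsInfStrategy S) (hF : NewShortest S) {ε : ℝ}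
    (hε : 0 < ε) :
    ∀ᶠ n : ℕ in atTop, Real.log 2 - ε ≤ n * (discUpTo S n - discMin n) := by
  have hL := log_two_pos
  have hL1 : Real.log 2 ≤ 1 := by have := Real.log_two_lt_d9; linarith
  by_cases h2 : ∀ t, 1 ≤ t → disc (S t) < 2
  · obtain ⟨x, τ, σ, J, hC, hstep, hlow, hJ, hmem, hnot⟩ := exists_cutSeq hS h2
    obtain ⟨T, hT, hidx⟩ := fifo_indices hF hC hJ hmem hnot
    have hcore := fifo_core (x := x) (r := discUpTo S) hT hC.pos hC.anti
      (fun t ht => by
        have := hC.split t (by omega)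
        rw [(hidx t ht).1, (hidx t ht).2] at this
        exact this)
      (fun m n hm hmn => discUpTo_mono hm hmn)
      (fun t n ht htn => by
        have e1 := hstep t (by omega)
        rw [(hidx t ht).2] at e1
        have e2 : disc (S (t + 1)) ≤ discUpTo S n := disc_le_discUpTo (by omega) htn
        exact e1.trans (mul_le_mul_of_nonneg_right e2 (hC.pos _ (by omega)).le))
      (g := 3 / 2 * Real.log 2 + ε / 4) (by linarith)
    obtain ⟨N, hN⟩ := exists_nat_gt (24 / ε)
    have hN' : 24 < N * ε := by rwa [div_lt_iff₀ hε] at hN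
    filter_upwards [hcore, eventually_ge_atTop (max N 1)] with n hn hnN
    have hn1 : 1 ≤ n := (le_max_right _ _).trans hnN
    have hnr : (1 : ℝ) ≤ n := by exact_mod_cast hn1
    have hnN' : (N : ℝ) ≤ n := by exact_mod_cast (le_max_left _ _).trans hnN
    have h3 := discMin_le hn1
    have h4 : 2 - (3 * Real.log 2 + ε / 2) / n ≤ discUpTo S n := by
      have := Real.add_one_le_exp (-((3 / 2 * Real.log 2 + ε / 4) / n))
      have e : (3 * Real.log 2 + ε / 2) / n = 2 * ((3 / 2 * Real.log 2 + ε / 4) / n) := by ring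
      rw [e]
      linarith
    have h5 : (Real.log 2 - ε) / n ≤ discUpTo S n - discMin n := by
      have : (2 - (3 * Real.log 2 + ε / 2) / n) - (2 - 4 * Real.log 2 / (n + 3)) -
          (Real.log 2 - ε) / n = (ε / 2 * (n + 3) - 12 * Real.log 2) / (n * (n + 3)) := by
        field_simp
        ring
      have h6 : 0 ≤ (ε / 2 * (n + 3) - 12 * Real.log 2) / ((n : ℝ) * (n + 3)) := by
        apply div_nonneg _ (by positivity)
        nlinarith
      linarith
    rw [div_le_iff₀ (by linarith)] at h5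
    linarith
  · push Not at h2
    obtain ⟨t, ht, ht2⟩ := h2
    obtain ⟨N, hN⟩ := exists_nat_gt (12 / ε)
    have hN' : 12 < N * ε := by rwa [div_lt_iff₀ hε] at hN
    filter_upwards [eventually_ge_atTop (max N t)] with n hn
    have hn1 : t ≤ n := (le_max_right _ _).trans hn
    have hnr : (1 : ℝ) ≤ n := by exact_mod_cast ht.trans hn1
    have hnN' : (N : ℝ) ≤ n := by exact_mod_cast (le_max_left _ _).trans hn
    have h3 := discMin_le (ht.trans hn1)
    have h4 : 2 ≤ discUpTo S n := ht2.trans (disc_le_discUpTo ht hn1)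
    have h5 : 4 * Real.log 2 / (n + 3) ≤ discUpTo S n - discMin n := by linarith
    have h6 : n * (4 * Real.log 2 / (n + 3)) ≤ n * (discUpTo S n - discMin n) :=
      mul_le_mul_of_nonneg_left h5 (by linarith)
    refine le_trans ?_ h6
    rw [← mul_div_assoc, le_div_iff₀ (by linarith)]
    nlinarith

end Pool.Agent.H36.Split
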