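import Pool.Agent.H36.SplitFifo

namespace Pool.Agent.H36.Split

open Finset Filter

/-- `2 ^ (-1 / 2 ^ m)`. -/
noncomputable def ww (m : ℕ) : ℝ := (2 : ℝ) ^ (-(1 / (2 : ℝ) ^ m))

lemma ww_pos (m : ℕ) : 0 < ww m := Real.rpow_pos_of_pos (by norm_num) _

lemma ww_lt_one (m : ℕ) : ww m < 1 := by
  apply Real.rpow_lt_one_of_one_lt_of_neg (by norm_num)
  have : (0 : ℝ) < 1 / 2 ^ m := by positivity
  linarith

lemma ww_sq (m : ℕ) : ww (m + 1) ^ 2 = ww m := by
  unfold ww
  rw [← Real.rpow_natCast, ← Real.rpow_mul (by norm_num)]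
  congr 1
  rw [pow_succ]
  push_cast
  field_simp

lemma ww_zero : ww 0 = 1 / 2 := by
  unfold ww
  norm_num [Real.rpow_neg_one]

lemma ww_pow (m : ℕ) : ww m ^ (2 ^ m) = 1 / 2 := by
  induction m with
  | zero => rw [ww_zero]; norm_num
  | succ m ih => rw [pow_succ' 2 m, pow_mul, ww_sq, ih]

lemma ww_lt_succ (m : ℕ) : ww m < ww (m + 1) := by
  rw [← ww_sq m]
  have := ww_pos (m + 1)
  have := ww_lt_one (m + 1)
  nlinarith

lemma ww_mono {m n : ℕ} (h : m ≤ n) : ww m ≤ ww n := by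
  induction n, h using Nat.le_induction with
  | base => exact le_rfl
  | succ n hn ih => exact ih.trans (ww_lt_succ n).le

/-- The lengths of the extremal strategy. -/
noncomputable def xx (t : ℕ) : ℝ := 4 * ww (Nat.log 2 t) ^ t * (1 - ww (Nat.log 2 t))

lemma xx_pos (t : ℕ) : 0 < xx t := by
  unfold xx
  have h1 := ww_pos (Nat.log 2 t)
  have h2 := ww_lt_one (Nat.log 2 t)
  have : 0 < 1 - ww (Nat.log 2 t) := by linarith
  positivity

lemma log_level {m t : ℕ} (h1 : 2 ^ m ≤ t) (h2 : t < 2 ^ (m + 1)) : Nat.log 2 t = m :=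
  (Nat.log_eq_iff (Or.inr ⟨by norm_num, by
    have : 0 < 2 ^ m := by positivity
    omega⟩)).mpr ⟨h1, h2⟩

lemma xx_level {m t : ℕ} (h1 : 2 ^ m ≤ t) (h2 : t < 2 ^ (m + 1)) :
    xx t = 4 * ww m ^ t * (1 - ww m) := by
  unfold xx
  rw [log_level h1 h2]

lemma exists_level {t : ℕ} (ht : 1 ≤ t) : ∃ m, 2 ^ m ≤ t ∧ t < 2 ^ (m + 1) :=
  ⟨Nat.log 2 t, Nat.pow_log_le_self 2 (by omega), Nat.lt_pow_succ_log_self (by norm_num) t⟩

lemma xx_one : xx 1 = 1 := by
  rw [xx_level (m := 0) (by norm_num) (by norm_num), ww_zero]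
  norm_num

lemma xx_split {t : ℕ} (ht : 1 ≤ t) : xx t = xx (2 * t) + xx (2 * t + 1) := by
  obtain ⟨m, h1, h2⟩ := exists_level ht
  have e1 : 2 ^ (m + 1) = 2 * 2 ^ m := pow_succ' 2 m
  have e2 : 2 ^ (m + 1 + 1) = 2 * 2 ^ (m + 1) := pow_succ' 2 (m + 1)
  rw [xx_level h1 h2, xx_level (m := m + 1) (t := 2 * t) (by omega) (by omega),
    xx_level (m := m + 1) (t := 2 * t + 1) (by omega) (by omega), ← ww_sq m, ← pow_mul]
  ring

lemma xx_anti {t : ℕ} (ht : 1 ≤ t) : xx (t + 1) < xx t := by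
  obtain ⟨m, h1, h2⟩ := exists_level ht
  have p1 := ww_pos m
  have p2 := ww_lt_one m
  by_cases h : t + 1 < 2 ^ (m + 1)
  · rw [xx_level h1 h2, xx_level (m := m) (t := t + 1) (by omega) h, pow_succ]
    have : 0 < 4 * ww m ^ t * (1 - ww m) := by
      have : 0 < 1 - ww m := by linarith
      positivity
    nlinarith
  · have e2 : 2 ^ (m + 1 + 1) = 2 * 2 ^ (m + 1) := pow_succ' 2 (m + 1)
    have e3 : 0 < 2 ^ (m + 1) := by positivity
    have ht' : t + 1 = 2 ^ (m + 1) := by omega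
    rw [xx_level h1 h2, ht', xx_level (m := m + 1) le_rfl (by omega), ww_pow]
    have h4 : ww m ^ t * ww m = 1 / 4 := by
      rw [← pow_succ, ht', pow_succ 2 m, pow_mul, ww_pow]
      norm_num
    have q1 := ww_pos (m + 1)
    have q2 := ww_lt_one (m + 1)
    have e4 := ww_sq m
    have h5 : (4 * (1 / 2) * (1 - ww (m + 1))) * ww m < (4 * ww m ^ t * (1 - ww m)) * ww m := by
      have : (4 * ww m ^ t * (1 - ww m)) * ww m = 4 * (ww m ^ t * ww m) * (1 - ww m) := by ring
      rw [this, h4, ← e4]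
      have : 4 * (1 / 4) * (1 - ww (m + 1) ^ 2) - 4 * (1 / 2) * (1 - ww (m + 1)) * ww (m + 1) ^ 2 =
          (1 - ww (m + 1)) ^ 2 * (1 + 2 * ww (m + 1)) := by ring
      have h6 : 0 < (1 - ww (m + 1)) ^ 2 * (1 + 2 * ww (m + 1)) := by
        have : 0 < 1 - ww (m + 1) := by linarith
        positivity
      linarith
    exact lt_of_mul_lt_mul_right h5 p1.le

lemma xx_anti_le {i j : ℕ} (hi : 1 ≤ i) (hij : i ≤ j) : xx j ≤ xx i := by
  induction j, hij using Nat.le_induction with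
  | base => exact le_rfl
  | succ j hj ih => exact (xx_anti (by omega)).le.trans ih

lemma xx_anti_lt {i j : ℕ} (hi : 1 ≤ i) (hij : i < j) : xx j < xx i :=
  (xx_anti_le (i := i + 1) (by omega) hij).trans_lt (xx_anti hi)

lemma xx_ratio {m t : ℕ} (h1 : 2 ^ m ≤ t) (h2 : t < 2 ^ (m + 1)) :
    xx t ≤ (ww m + ww (m + 1)) * xx (2 * t - 1) := by
  have ht : 1 ≤ t := le_trans Nat.one_le_two_pow h1
  have e1 : 2 ^ (m + 1) = 2 * 2 ^ m := pow_succ' 2 m
  have e2 : 2 ^ (m + 1 + 1) = 2 * 2 ^ (m + 1) := pow_succ' 2 (m + 1)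
  have p1 := ww_pos m
  have p2 := ww_lt_one m
  have p3 := ww_lt_succ m
  have p4 := ww_lt_one (m + 1)
  have p5 := ww_pos (m + 1)
  rcases h1.lt_or_eq with h | h
  · -- generic case
    rw [xx_level h1 h2, xx_level (m := m + 1) (t := 2 * t - 1) (by omega) (by omega)]
    have h3 : ww (m + 1) ^ (2 * t - 1) * ww (m + 1) = ww m ^ t := by
      rw [← pow_succ, show 2 * t - 1 + 1 = 2 * t by omega, pow_mul, ww_sq]
    have h4 : (ww m + ww (m + 1)) * (4 * ww (m + 1) ^ (2 * t - 1) * (1 - ww (m + 1))) =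
        4 * (ww (m + 1) ^ (2 * t - 1) * ww (m + 1)) * (1 - ww m) := by
      rw [← ww_sq m]
      ring
    rw [h4, h3]
  · -- t = 2 ^ m
    have h5 : 2 * t - 1 < 2 ^ (m + 1) := by omega
    rw [xx_level h1 h2, xx_level (m := m) (t := 2 * t - 1) (by omega) h5]
    have h6 : ww m ^ (2 * t - 1) * ww m = 1 / 4 := by
      rw [← pow_succ, show 2 * t - 1 + 1 = 2 ^ m * 2 by omega, pow_mul, ww_pow]
      norm_num
    rw [← h, ww_pow]
    rw [← h] at h6
    have h7 : 4 * (1 / 2) * (1 - ww m) * ww m ≤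
        (ww m + ww (m + 1)) * (4 * ww m ^ (2 * 2 ^ m - 1) * (1 - ww m)) * ww m := by
      have : (ww m + ww (m + 1)) * (4 * ww m ^ (2 * 2 ^ m - 1) * (1 - ww m)) * ww m =
        (ww m + ww (m + 1)) * (4 * (ww m ^ (2 * 2 ^ m - 1) * ww m) * (1 - ww m)) := by ring
      rw [this, h6]
      have : 0 < 1 - ww m := by linarith
      nlinarith
    exact le_of_mul_le_mul_right h7 p1

lemma newShortest_of_lens {S : ℕ → Finset (ℝ × ℝ)} (hS : IsInfStrategy S) {l : ℕ → ℝ}
    (hl : ∀ t, 1 ≤ t → lens (S t) = (Finset.Ico t (2 * t)).val.map l)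
    (hanti : ∀ i j, 1 ≤ i → i < j → l j < l i) : NewShortest S := by
  refine ⟨1, fun t ht I hI hI' K hK hK' => ?_⟩
  obtain ⟨a, b, c, hac, hcb, hab, hQ⟩ := hS.cut t ht
  have hP := hS.part t ht
  have h1 := lens_cut hP hac hcb hab
  rw [← hQ, hl (t + 1) (by omega), hl t ht] at h1
  have e1 : Finset.Ico t (2 * t) = insert t (Finset.Ico (t + 1) (2 * t)) := by
    ext i; simp only [Finset.mem_insert, Finset.mem_Ico]; omega
  have e2 : Finset.Ico (t + 1) (2 * (t + 1)) =
      insert (2 * t) (insert (2 * t + 1) (Finset.Ico (t + 1) (2 * t))) := by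
    ext i; simp only [Finset.mem_insert, Finset.mem_Ico]; omega
  have i1 : t ∉ Finset.Ico (t + 1) (2 * t) := by rw [Finset.mem_Ico]; omega
  have i2 : 2 * t ∉ insert (2 * t + 1) (Finset.Ico (t + 1) (2 * t)) := by
    rw [Finset.mem_insert, Finset.mem_Ico]; omega
  have i3 : 2 * t + 1 ∉ Finset.Ico (t + 1) (2 * t) := by rw [Finset.mem_Ico]; omega
  rw [e1, e2, Finset.insert_val_of_notMem i1, Finset.insert_val_of_notMem i2,
    Finset.insert_val_of_notMem i3, Multiset.map_cons,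
    Multiset.map_cons, Multiset.map_cons] at h1
  set R := Multiset.map l (Finset.Ico (t + 1) (2 * t)).val with hR
  have hRmem : ∀ z ∈ R, ∃ s, t < s ∧ s < 2 * t ∧ z = l s := by
    intro z hz
    rw [hR, Multiset.mem_map] at hz
    obtain ⟨s, hs, rfl⟩ := hz
    rw [Finset.mem_val, Finset.mem_Ico] at hs
    exact ⟨s, by omega, hs.2, rfl⟩
  -- the cut interval has length `l t`
  have hlen : b - a = l t := by
    by_contra hne
    have hmem : l t ∈ (l t ::ₘ R).erase (b - a) := by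
      rw [Multiset.mem_erase_of_ne (Ne.symm hne)]
      exact Multiset.mem_cons_self _ _
    have h2 : l t ∈ l (2 * t) ::ₘ l (2 * t + 1) ::ₘ R := by
      rw [h1]
      exact Multiset.mem_cons_of_mem (Multiset.mem_cons_of_mem hmem)
    rw [Multiset.mem_cons, Multiset.mem_cons] at h2
    rcases h2 with h2 | h2 | h2
    · exact absurd h2 (hanti t (2 * t) ht (by omega)).ne'
    · exact absurd h2 (hanti t (2 * t + 1) ht (by omega)).ne'
    · obtain ⟨s, hs1, hs2, hs3⟩ := hRmem _ h2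
      exact absurd hs3 (hanti t s ht hs1).ne'
  rw [hlen, Multiset.erase_cons_head] at h1
  -- cancel `R`
  have h3 : ({l (2 * t), l (2 * t + 1)} : Multiset ℝ) = {c - a, b - c} := by
    have : R + {l (2 * t), l (2 * t + 1)} = R + {c - a, b - c} := by
      rw [add_comm R, add_comm R]
      simpa using h1
    exact add_left_cancel this
  have hnew : I.2 - I.1 = l (2 * t) ∨ I.2 - I.1 = l (2 * t + 1) := by
    rw [hQ, Finset.mem_insert, Finset.mem_insert, Finset.mem_erase] at hI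
    have hcases : I = (a, c) ∨ I = (c, b) := by
      rcases hI with h | h | h
      · exact Or.inl h
      · exact Or.inr h
      · exact absurd h.2 hI'
    have hmem : I.2 - I.1 ∈ ({c - a, b - c} : Multiset ℝ) := by
      rcases hcases with h | h
      · rw [h]; simp
      · rw [h]; simp
    rw [← h3] at hmem
    simpa using hmem
  have hold : ∃ s, t < s ∧ s < 2 * t ∧ K.2 - K.1 = l s := by
    have hKne : K ≠ (a, b) := by
      intro he
      rw [he, hQ, Finset.mem_insert, Finset.mem_insert, Finset.mem_erase] at hK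
      rcases hK with h | h | h
      · rw [Prod.mk.injEq] at h; linarith [h.2]
      · rw [Prod.mk.injEq] at h; linarith [h.1]
      · exact h.1 rfl
    apply hRmem
    have hKe : K ∈ (S t).erase (a, b) := Finset.mem_erase.mpr ⟨hKne, hK'⟩
    have e3 : lens (S t) = (b - a) ::ₘ (((S t).erase (a, b)).val.map (fun I => I.2 - I.1)) := by
      unfold lens
      rw [Finset.erase_val]
      conv_lhs => rw [← Multiset.cons_erase (Finset.mem_val.mpr hab)]
      rw [Multiset.map_cons]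
    rw [hl t ht, e1, Finset.insert_val_of_notMem i1,
      Multiset.map_cons, ← hR, hlen, Multiset.cons_inj_right] at e3
    rw [e3, Multiset.mem_map]
    exact ⟨K, hKe, rfl⟩
  obtain ⟨s, hs1, hs2, hs3⟩ := hold
  rw [hs3]
  rcases hnew with h | h <;> rw [h]
  · exact (hanti s (2 * t) (by omega) hs2).le
  · exact (hanti s (2 * t + 1) (by omega) (by omega)).le

/-- A strategy for which `log 2` is attained. -/
theorem fifo_upper : ∃ S, IsInfStrategy S ∧ NewShortest S ∧
    ∃ᶠ n : ℕ in atTop, n * (discUpTo S n - discMin n) ≤ Real.log 2 := by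
  obtain ⟨S, hS, hl⟩ := realize xx xx_one (fun j _ => xx_pos j) (fun t ht => xx_split ht)
  refine ⟨S, hS, newShortest_of_lens hS hl (fun i j hi hij => xx_anti_lt hi hij), ?_⟩
  rw [frequently_atTop]
  intro N
  have hN : N < 2 ^ N := Nat.lt_two_pow_self
  refine ⟨2 ^ (N + 1) - 1, by rw [pow_succ]; omega, ?_⟩
  set n := 2 ^ (N + 1) - 1 with hn
  have hpow : 2 ^ (N + 1) = 2 * 2 ^ N := pow_succ' 2 N
  have hn1 : 1 ≤ n := by omega
  have hup : discUpTo S n ≤ ww N + ww (N + 1) := by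
    apply discUpTo_le hn1
    intro t ht1 ht2
    obtain ⟨m, h1, h2⟩ := exists_level ht1
    have hmN : m ≤ N := by
      by_contra hcon
      have : 2 ^ (N + 1) ≤ 2 ^ m := Nat.pow_le_pow_right (by norm_num) (by omega)
      omega
    apply disc_le_of_lens (hS.part t ht1) ht1 (hl t ht1)
    intro i j hi1 hi2 hj1 hj2
    have p := xx_pos j
    have w1 := ww_mono hmN
    have w2 := ww_mono (Nat.succ_le_succ hmN)
    calc xx i ≤ xx t := xx_anti_le ht1 hi1
      _ ≤ (ww m + ww (m + 1)) * xx (2 * t - 1) := xx_ratio h1 h2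
      _ ≤ (ww m + ww (m + 1)) * xx j := by
        apply mul_le_mul_of_nonneg_left (xx_anti_le (by omega) (by omega))
        have := ww_pos m; have := ww_pos (m + 1); linarith
      _ ≤ (ww N + ww (N + 1)) * xx j := by
        apply mul_le_mul_of_nonneg_right _ p.le
        simp only [Nat.succ_eq_add_one] at w2
        linarith
  have hdm : discMin n = 2 * ww N := by
    rw [discMin_eq hn1]
    have hceil : ⌈((n : ℕ) : ℝ) / 2⌉₊ = 2 ^ N := by
      have hcast : ((n : ℕ) : ℝ) = 2 * 2 ^ N - 1 := by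
        rw [hn, Nat.cast_sub Nat.one_le_two_pow, hpow]
        push_cast
        ring
      rw [hcast, Nat.ceil_eq_iff (by positivity)]
      constructor
      · rw [Nat.cast_sub Nat.one_le_two_pow]
        push_cast
        linarith
      · push_cast
        linarith
    rw [hceil]
    unfold ww
    rw [sub_eq_add_neg, Real.rpow_add (by norm_num), Real.rpow_one]
    push_cast
    rfl
  rw [hdm]
  have q1 := ww_pos (N + 1)
  have q2 := ww_lt_one (N + 1)
  have e4 := ww_sq N
  have hgap : discUpTo S n - 2 * ww N ≤ 1 - ww (N + 1) := by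
    have : ww N + ww (N + 1) - 2 * ww N ≤ 1 - ww (N + 1) := by nlinarith
    linarith
  have hexp : 1 - Real.log 2 / 2 ^ (N + 1) ≤ ww (N + 1) := by
    unfold ww
    rw [Real.rpow_def_of_pos (by norm_num : (0 : ℝ) < 2)]
    have := Real.add_one_le_exp (Real.log 2 * -(1 / 2 ^ (N + 1)))
    have e : Real.log 2 * -(1 / 2 ^ (N + 1)) = -(Real.log 2 / 2 ^ (N + 1)) := by ring
    rw [e] at this ⊢
    linarith
  have hnr : (n : ℝ) ≤ 2 ^ (N + 1) := by
    have : n ≤ 2 ^ (N + 1) := by omega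
    exact_mod_cast this
  have hL := log_two_pos
  have hn0 : (0 : ℝ) ≤ n := Nat.cast_nonneg n
  calc (n : ℝ) * (discUpTo S n - 2 * ww N) ≤ n * (1 - ww (N + 1)) :=
        mul_le_mul_of_nonneg_left hgap hn0
    _ ≤ n * (Real.log 2 / 2 ^ (N + 1)) := by
        apply mul_le_mul_of_nonneg_left _ hn0
        linarith
    _ ≤ 2 ^ (N + 1) * (Real.log 2 / 2 ^ (N + 1)) := by
        apply mul_le_mul_of_nonneg_right hnr (by positivity)
    _ = Real.log 2 := by field_simp

end Pool.Agent.H36.Split
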