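import Pool.Agent.H36.SplitTree

namespace Pool.Agent.H36.Split

open Finset Filter

namespace CutSeq

variable {x : ℕ → ℝ} {τ σ : ℕ → ℕ}

lemma lt_of_lt (h : CutSeq x τ σ) {i j : ℕ} (hi : 1 ≤ i) (hij : i < j) : x j < x i := by
  induction j, hij using Nat.le_induction with
  | base => exact h.anti i hi
  | succ j hj ih => exact (h.anti j (by omega)).trans ih

lemma le_of_le (h : CutSeq x τ σ) {i j : ℕ} (hi : 1 ≤ i) (hij : i ≤ j) : x j ≤ x i := by
  rcases hij.lt_or_eq with hlt | heq
  · exact (h.lt_of_lt hi hlt).le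
  · rw [heq]

lemma lt_iff (h : CutSeq x τ σ) {i j : ℕ} (hi : 1 ≤ i) (hj : 1 ≤ j) : x j < x i ↔ i < j := by
  constructor
  · intro hx
    by_contra hcon
    exact absurd (h.le_of_le hj (not_lt.mp hcon)) (not_le.mpr hx)
  · exact h.lt_of_lt hi

/-- The longer piece is cut not much later than at time `2 t`. -/
lemma tau_bound (h : CutSeq x τ σ) (hd : ∀ t, 1 ≤ t → x (t + 1) < 2 * x (σ t)) (t : ℕ)
    (ht : 1 ≤ t) : ∃ F : ℕ, τ t ≤ 2 * t + F ∧ 2 ^ F * (x t - x (t + 1)) ≤ x t / 2 := by
  classical
  set K := τ t with hK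
  have hKt : t < K := h.lt1 t ht
  set A : ℕ → Finset ℕ := fun n => (Finset.Ioo t n).filter fun p => τ p ≤ K with hA
  have hxK : x t / 2 ≤ x K := by
    have e1 := h.split t ht
    have e2 := h.lt_of_lt (i := τ t) (j := σ t) (by omega) (h.lt2 t ht)
    rw [← hK] at e1 e2
    linarith
  have key : ∀ n, t + 1 ≤ n → n ≤ K → 2 ^ (A n).card * (x t - x (t + 1)) ≤ x t - x n := by
    intro n hn
    induction n, hn using Nat.le_induction with
    | base =>
      intro _
      have : A (t + 1) = ∅ := by
        rw [hA]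
        simp only
        rw [Finset.filter_eq_empty_iff]
        intro p hp
        rw [Finset.mem_Ioo] at hp
        omega
      rw [this]
      simp
    | succ n hn ih =>
      intro hnK
      have ih' := ih (by omega)
      have hIoo : Finset.Ioo t (n + 1) = insert n (Finset.Ioo t n) := by
        ext p
        simp only [Finset.mem_Ioo, Finset.mem_insert]
        omega
      have hlt := h.lt_of_lt (i := n) (j := n + 1) (by omega) (by omega)
      by_cases hτ : τ n ≤ K
      · have hAn : A (n + 1) = insert n (A n) := by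
          show (Finset.Ioo t (n + 1)).filter (fun p => τ p ≤ K) = _
          rw [hIoo, Finset.filter_insert, if_pos hτ]
        have hcard : (A (n + 1)).card = (A n).card + 1 := by
          rw [hAn, Finset.card_insert_of_notMem]
          intro hmem
          have := (Finset.mem_filter.mp hmem).1
          rw [Finset.mem_Ioo] at this
          omega
        rw [hcard, pow_succ]
        have e1 := h.split n (by omega)
        have e2 := hd n (by omega)
        have e3 := h.le_of_le (i := τ n) (j := K) (by have := h.lt1 n (by omega); omega) hτ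
        nlinarith
      · have hAn : A (n + 1) = A n := by
          show (Finset.Ioo t (n + 1)).filter (fun p => τ p ≤ K) = _
          rw [hIoo, Finset.filter_insert, if_neg hτ]
        rw [hAn]
        linarith
  refine ⟨(A K).card, ?_, ?_⟩
  · have hsub : Finset.Icc 2 K ⊆ ((Finset.Icc 1 t).image τ ∪ (Finset.Icc 1 (t - 1)).image σ) ∪
        (A K).image τ := by
      intro s hs
      rw [Finset.mem_Icc] at hs
      obtain ⟨p, hp, hps, hpe⟩ := h.surj s hs.1
      simp only [Finset.mem_union, Finset.mem_image, Finset.mem_Icc]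
      rcases hpe with hpe | hpe
      · by_cases hpt : p ≤ t
        · exact Or.inl (Or.inl ⟨p, ⟨hp, hpt⟩, hpe.symm⟩)
        · refine Or.inr ⟨p, ?_, hpe.symm⟩
          rw [hA]
          simp only [Finset.mem_filter, Finset.mem_Ioo]
          omega
      · left; right
        refine ⟨p, ⟨hp, ?_⟩, hpe.symm⟩
        by_contra hcon
        have hpt : t ≤ p := by omega
        have e0 := h.lt1 p hp
        have e1 := h.split p hp
        have e2 := h.lt_of_lt (i := τ p) (j := σ p) (by omega) (h.lt2 p hp)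
        have e3 := h.le_of_le (i := σ p) (j := K) (by omega) (by omega)
        have e4 := h.le_of_le ht hpt
        linarith
    have h1 := Finset.card_le_card hsub
    have h2 : (((Finset.Icc 1 t).image τ ∪ (Finset.Icc 1 (t - 1)).image σ) ∪
        (A K).image τ).card ≤ t + (t - 1) + (A K).card := by
      refine (Finset.card_union_le _ _).trans ?_
      have g1 := Finset.card_union_le ((Finset.Icc 1 t).image τ) ((Finset.Icc 1 (t - 1)).image σ)
      have g2 : ((Finset.Icc 1 t).image τ).card ≤ (Finset.Icc 1 t).card := Finset.card_image_le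
      have g3 : ((Finset.Icc 1 (t - 1)).image σ).card ≤ (Finset.Icc 1 (t - 1)).card :=
        Finset.card_image_le
      have g4 : ((A K).image τ).card ≤ (A K).card := Finset.card_image_le
      rw [Nat.card_Icc] at g2 g3
      omega
    rw [Nat.card_Icc] at h1
    omega
  · refine (key K (by omega) le_rfl).trans ?_
    linarith

/-- `x` decreases at least at the rate `lam / t`, eventually. -/
def Rate (x : ℕ → ℝ) (lam : ℝ) : Prop :=
  ∃ T : ℕ, 1 ≤ T ∧ ∀ t, T ≤ t → x (t + 1) ≤ (1 - lam / t) * x t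

lemma sq_le_two_pow (n : ℕ) : (n : ℝ) ^ 2 ≤ 2 * 2 ^ n := by
  have h : ∀ n : ℕ, n ^ 2 ≤ 2 * 2 ^ n := by
    intro n
    induction n with
    | zero => norm_num
    | succ n ih =>
      rcases Nat.lt_or_ge n 3 with h3 | h3
      · interval_cases n <;> norm_num
      · rw [pow_succ 2 n]
        nlinarith
  exact_mod_cast h n

/-- The time at which the longer piece is cut is at most `(2 + ε) t` for large `t`. -/
lemma tau_le (h : CutSeq x τ σ) (hd : ∀ t, 1 ≤ t → x (t + 1) < 2 * x (σ t)) {lam : ℝ}
    (hlam : 0 < lam) (hR : Rate x lam) {ε : ℝ} (hε : 0 < ε) :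
    ∃ T : ℕ, 1 ≤ T ∧ ∀ t, T ≤ t → (τ t : ℝ) ≤ (2 + ε) * t := by
  obtain ⟨T, hT1, hT⟩ := hR
  obtain ⟨N, hN⟩ := exists_nat_gt (1 / (lam * ε ^ 2))
  refine ⟨max T N, hT1.trans (le_max_left _ _), fun t ht => ?_⟩
  have ht1 : T ≤ t := (le_max_left _ _).trans ht
  have ht2 : N ≤ t := (le_max_right _ _).trans ht
  have ht0 : 1 ≤ t := hT1.trans ht1
  have htr : (1 : ℝ) ≤ t := by exact_mod_cast ht0
  obtain ⟨F, hF1, hF2⟩ := h.tau_bound hd t ht0
  have hx := h.pos t ht0
  have e1 := hT t ht1
  have e2 : lam / t * x t ≤ x t - x (t + 1) := by linarith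
  have e3 : 2 ^ F * (lam / t) * x t ≤ 1 / 2 * x t := by
    calc 2 ^ F * (lam / t) * x t = 2 ^ F * (lam / t * x t) := by ring
      _ ≤ 2 ^ F * (x t - x (t + 1)) := by gcongr
      _ ≤ x t / 2 := hF2
      _ = 1 / 2 * x t := by ring
  have e4 : 2 ^ F * (lam / t) ≤ 1 / 2 := le_of_mul_le_mul_right e3 hx
  have e5 : 2 * 2 ^ F * lam ≤ t := by
    rw [← mul_div_assoc, div_le_iff₀ (by linarith)] at e4
    linarith
  have e6 := sq_le_two_pow F
  have e7 : (F : ℝ) ^ 2 * lam ≤ t := by nlinarith
  have e8 : 1 < t * (lam * ε ^ 2) := by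
    have : (N : ℝ) ≤ t := by exact_mod_cast ht2
    have h3 : 1 / (lam * ε ^ 2) < t := hN.trans_le this
    rwa [div_lt_iff₀ (by positivity)] at h3
  have e9 : (F : ℝ) ≤ ε * t := by
    by_contra hcon
    push Not at hcon
    have h1 : (ε * t) ^ 2 < (F : ℝ) ^ 2 := by
      have : 0 ≤ ε * t := by positivity
      nlinarith
    have h2 : (ε * t) ^ 2 * lam < (F : ℝ) ^ 2 * lam := by
      exact mul_lt_mul_of_pos_right h1 hlam
    nlinarith
  have e10 : (τ t : ℝ) ≤ 2 * t + F := by exact_mod_cast hF1
  linarith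

lemma rate_le_one (h : CutSeq x τ σ) (hlow : ∀ t : ℕ, 1 ≤ t → 1 ≤ t * x t) {lam : ℝ}
    (hR : Rate x lam) : lam ≤ 1 := by
  by_contra hcon
  push Not at hcon
  obtain ⟨T, hT1, hT⟩ := hR
  -- `u t = t * x t` decreases
  have step : ∀ t : ℕ, T ≤ t → ((t + 1 : ℕ) : ℝ) * x (t + 1) ≤ t * x t - (lam - 1) / t := by
    intro t ht
    have ht0 : 1 ≤ t := hT1.trans ht
    have htr : (1 : ℝ) ≤ t := by exact_mod_cast ht0
    have e1 := hT t ht
    have e2 := hlow t ht0
    have e3 : ((t + 1 : ℕ) : ℝ) * x (t + 1) ≤ (t + 1) * ((1 - lam / t) * x t) := by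
      push_cast
      exact mul_le_mul_of_nonneg_left e1 (by linarith)
    have e4 : ((t : ℝ) + 1) * ((1 - lam / t) * x t) = t * x t - (lam - 1) / t * (t * x t)
        - lam / t * x t := by
      field_simp
      ring
    have hx := h.pos t ht0
    have e5 : 0 ≤ lam / t * x t := by positivity
    have e6 : (lam - 1) / t ≤ (lam - 1) / t * (t * x t) := by
      have : 0 ≤ (lam - 1) / t := div_nonneg (by linarith) (by linarith)
      nlinarith
    linarith
  have sums : ∀ n : ℕ, ((T + n : ℕ) : ℝ) * x (T + n) ≤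
      T * x T - (lam - 1) * ∑ i ∈ range n, 1 / ((T + i : ℕ) : ℝ) := by
    intro n
    induction n with
    | zero => simp
    | succ n ih =>
      rw [Finset.sum_range_succ, mul_add]
      have := step (T + n) (by omega)
      have e : (lam - 1) / ((T + n : ℕ) : ℝ) = (lam - 1) * (1 / ((T + n : ℕ) : ℝ)) := by ring
      rw [e] at this
      have e2 : T + (n + 1) = T + n + 1 := by ring
      rw [e2]
      linarith
  have hdiv : Tendsto (fun n : ℕ => ∑ i ∈ range n, 1 / ((T + i : ℕ) : ℝ)) atTop atTop := by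
    have h1 : Tendsto (fun n : ℕ => ∑ i ∈ range n, (1 / ((i : ℝ) + 1))) atTop atTop :=
      Real.tendsto_sum_range_one_div_nat_succ_atTop
    have h2 : Tendsto (fun n : ℕ => (1 / (T : ℝ)) * ∑ i ∈ range n, (1 / ((i : ℝ) + 1)))
        atTop atTop := Tendsto.const_mul_atTop (by positivity) h1
    refine tendsto_atTop_mono (fun n => ?_) h2
    rw [Finset.mul_sum]
    apply Finset.sum_le_sum
    intro i _
    have hT0 : (1 : ℝ) ≤ T := by exact_mod_cast hT1
    rw [div_mul_div_comm, one_mul]
    apply div_le_div_of_nonneg_left one_pos.le (by positivity)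
    push_cast
    nlinarith [Nat.cast_nonneg (α := ℝ) i]
  obtain ⟨n, hn⟩ := (hdiv.eventually (eventually_gt_atTop (T * x T / (lam - 1)))).exists
  have h1 := sums n
  have h2 := hlow (T + n) (by omega)
  rw [div_lt_iff₀ (by linarith)] at hn
  linarith

/-- If the ratios are at most `2 - c / (t + 1)` eventually then `c ≤ 3 / 2`. -/
lemma const_le (h : CutSeq x τ σ) (hd : ∀ t, 1 ≤ t → x (t + 1) < 2 * x (σ t))
    (hlow : ∀ t : ℕ, 1 ≤ t → 1 ≤ t * x t) {c : ℝ}
    (hc : ∃ T : ℕ, 1 ≤ T ∧ ∀ t : ℕ, T ≤ t → x (t + 1) ≤ (2 - c / (t + 1)) * x (σ t)) :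
    c ≤ 3 / 2 := by
  by_contra hcon
  push Not at hcon
  obtain ⟨T, hT1, hT⟩ := hc
  -- general step
  have stepA : ∀ (mu : ℝ) (lam' : ℝ) (T' : ℕ), 1 ≤ T' → 0 ≤ mu → mu ≤ 1 →
      (∀ t : ℕ, T' ≤ t → x (σ t) ≤ x t / 2 * (1 - mu / t)) → lam' < c / 2 + mu → Rate x lam' := by
    intro mu lam' T' hT' hmu hmu1 hσ hlam'
    obtain ⟨N, hN⟩ := exists_nat_gt ((c + c * mu) / (c / 2 + mu - lam'))
    have hN' : c + c * mu < N * (c / 2 + mu - lam') := by
      rwa [div_lt_iff₀ (by linarith)] at hN
    refine ⟨max (max T T') (N + 2), by omega, fun t ht => ?_⟩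
    have ht1 : T ≤ t := (le_max_left _ _).trans ((le_max_left _ _).trans ht)
    have ht2 : T' ≤ t := (le_max_right _ _).trans ((le_max_left _ _).trans ht)
    have ht3 : N + 2 ≤ t := (le_max_right _ _).trans ht
    have htr : (1 : ℝ) ≤ t := by exact_mod_cast hT1.trans ht1
    have hNt : (N : ℝ) + 2 ≤ t := by exact_mod_cast ht3
    have hx := h.pos t (hT1.trans ht1)
    have hσpos := h.pos (σ t) (by
      have := h.lt1 t (hT1.trans ht1); have := h.lt2 t (hT1.trans ht1); omega)
    have e1 := hT t ht1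
    have e2 := hσ t ht2
    have hx1 := h.pos (t + 1) (by omega)
    have hcoef : 0 < 2 - c / (t + 1 : ℝ) := by
      by_contra hneg
      push Not at hneg
      nlinarith
    have e3 : x (t + 1) ≤ (2 - c / (t + 1)) * (x t / 2 * (1 - mu / t)) :=
      e1.trans (mul_le_mul_of_nonneg_left e2 hcoef.le)
    refine e3.trans ?_
    have e4 : (2 - c / (t + 1 : ℝ)) * (1 - mu / t) / 2 ≤ 1 - lam' / t := by
      have ht0 : (0 : ℝ) < t := by linarith
      rw [← sub_nonneg]
      have : 1 - lam' / t - (2 - c / (t + 1 : ℝ)) * (1 - mu / t) / 2 =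
          (t * (c / 2 + mu - lam') + mu - lam' - c * mu / 2) / (t * (t + 1)) := by
        field_simp
        ring
      rw [this]
      apply div_nonneg _ (by positivity)
      have h1 : (N : ℝ) * (c / 2 + mu - lam') ≤ (t - 2) * (c / 2 + mu - lam') :=
        mul_le_mul_of_nonneg_right (by linarith) (by linarith)
      nlinarith
    calc (2 - c / (t + 1 : ℝ)) * (x t / 2 * (1 - mu / t))
        = (2 - c / (t + 1 : ℝ)) * (1 - mu / t) / 2 * x t := by ring
      _ ≤ (1 - lam' / t) * x t := mul_le_mul_of_nonneg_right e4 hx.le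
  have base : ∀ lam' < c / 2, Rate x lam' := by
    intro lam' hlam'
    apply stepA 0 lam' 1 le_rfl le_rfl zero_le_one _ (by linarith)
    intro t ht
    have e1 := h.split t ht
    have e2 := h.lt_of_lt (i := τ t) (j := σ t) (by have := h.lt1 t ht; omega) (h.lt2 t ht)
    simp only [zero_div, sub_zero, mul_one]
    linarith
  have step : ∀ lam lam' : ℝ, 0 < lam → lam ≤ 1 → Rate x lam → lam' < c / 2 + lam / 4 →
      Rate x lam' := by
    intro lam lam' hlam hlam1 hR hlam'
    -- choose mu slightly smaller than lam / 4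
    obtain ⟨mu, hmu1, hmu2⟩ : ∃ mu, max 0 (lam' - c / 2) < mu ∧ mu < lam / 4 := by
      apply _root_.exists_between
      rw [max_lt_iff]
      constructor <;> linarith
    rw [max_lt_iff] at hmu1
    set ε := lam / (2 * mu) - 2 with hε
    have hε0 : 0 < ε := by
      rw [hε, sub_pos, lt_div_iff₀ (by linarith)]
      linarith
    obtain ⟨T1, hT11, hT1'⟩ := h.tau_le hd hlam hR hε0
    obtain ⟨T2, hT21, hT2⟩ := hR
    apply stepA mu lam' (max T1 T2) (hT11.trans (le_max_left _ _)) hmu1.1.le (by linarith) _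
      (by linarith)
    intro t ht
    have ht1 : T1 ≤ t := (le_max_left _ _).trans ht
    have ht2 : T2 ≤ t := (le_max_right _ _).trans ht
    have ht0 : 1 ≤ t := hT11.trans ht1
    have htr : (1 : ℝ) ≤ t := by exact_mod_cast ht0
    have hτ := hT1' t ht1
    have hlt1 := h.lt1 t ht0
    have hlt2 := h.lt2 t ht0
    have e1 := h.split t ht0
    have e2 := h.le_of_le (i := τ t + 1) (j := σ t) (by omega) (by omega)
    have e3 := hT2 (τ t) (by omega)
    have hτ0 : (0 : ℝ) < τ t := by
      have : (0 : ℕ) < τ t := by omega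
      exact_mod_cast this
    have hx := h.pos t ht0
    have ha := h.pos (τ t) (by omega)
    have hb := h.pos (σ t) (by omega)
    -- u = lam / τ t
    set u := lam / (τ t : ℝ) with hu
    have hu0 : 0 < u := by positivity
    have hu1 : u ≤ 1 := by
      rw [hu, div_le_one hτ0]
      have : (1 : ℝ) ≤ τ t := by exact_mod_cast (by omega : 1 ≤ τ t)
      linarith
    have e4 : x (σ t) ≤ (1 - u) * (x t - x (σ t)) := by
      have : x (τ t) = x t - x (σ t) := by linarith
      rw [← this]
      linarith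
    have e5 : x (σ t) ≤ x t / 2 * (1 - u / 2) := by
      have g1 : x (σ t) * (2 - u) ≤ (1 - u) * x t := by linarith
      have g2 : (1 - u) * x t ≤ (x t / 2 * (1 - u / 2)) * (2 - u) := by
        have : (x t / 2 * (1 - u / 2)) * (2 - u) = (1 - u) * x t + u ^ 2 / 4 * x t := by ring
        rw [this]
        have : 0 ≤ u ^ 2 / 4 * x t := by positivity
        linarith
      exact le_of_mul_le_mul_right (g1.trans g2) (by linarith)
    refine e5.trans ?_
    apply mul_le_mul_of_nonneg_left _ (by linarith)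
    have e6 : mu / t ≤ u / 2 := by
      rw [hu, div_div, div_le_div_iff₀ (by linarith) (by positivity)]
      have e7 : mu * ((2 + ε) * t) = lam / 2 * t := by
        rw [hε]
        have : mu ≠ 0 := by linarith [hmu1.1]
        field_simp
        ring
      have e8 : mu * (τ t : ℝ) ≤ mu * ((2 + ε) * t) := mul_le_mul_of_nonneg_left hτ hmu1.1.le
      linarith
    linarith
  -- the supremum argument
  set L := sSup {lam : ℝ | Rate x lam} with hL
  have hbdd : BddAbove {lam : ℝ | Rate x lam} := ⟨1, fun lam hlam => h.rate_le_one hlow hlam⟩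
  have hmem : ∀ lam, Rate x lam → lam ≤ L := fun lam hlam => le_csSup hbdd hlam
  have hL1 : L ≤ 1 := csSup_le ⟨0, base 0 (by linarith)⟩ fun lam hlam => h.rate_le_one hlow hlam
  have hLc : c / 2 ≤ L := le_of_forall_lt fun lam hlam => by
    obtain ⟨l, hl1, hl2⟩ := exists_between hlam
    exact hl1.trans_le (hmem l (base l hl2))
  have hLL : c / 2 + L / 4 ≤ L := by
    refine le_of_forall_lt fun lam hlam => ?_
    obtain ⟨l, hl1, hl2⟩ := exists_between hlam
    -- l < c/2 + L/4; choose a rate close to L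
    have hlt : max 0 (4 * (l - c / 2)) < L := by
      rw [max_lt_iff]
      constructor <;> linarith
    obtain ⟨m, hm, hm2⟩ := exists_lt_of_lt_csSup ⟨0, base 0 (by linarith)⟩ hlt
    rw [max_lt_iff] at hm2
    have hm' : Rate x m := hm
    exact hl1.trans_le (hmem l (step m l hm2.1 (h.rate_le_one hlow hm') hm' (by linarith)))
  linarith

end CutSeq

end Pool.Agent.H36.Split
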