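import Pool.Agent.H36.SplitLimsup

namespace Pool.Agent.H36.Split

open Finset Filter

lemma discMin_eq {n : ℕ} (hn : 1 ≤ n) :
    discMin n = (2 : ℝ) ^ (1 - 1 / ((⌈(n : ℝ) / 2⌉₊ : ℕ) : ℝ)) :=
  (exact_value hn).csInf_eq

lemma log_two_pos : 0 < Real.log 2 := Real.log_pos (by norm_num)

lemma discMin_le {n : ℕ} (hn : 1 ≤ n) : discMin n ≤ 2 - 4 * Real.log 2 / (n + 3) := by
  rw [discMin_eq hn]
  set k := ⌈(n : ℝ) / 2⌉₊ with hk
  have hn0 : (1 : ℝ) ≤ n := by exact_mod_cast hn
  have hk1 : (n : ℝ) / 2 ≤ k := Nat.le_ceil _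
  have hk2 : (k : ℝ) ≤ (n + 1) / 2 := by
    have h := Nat.ceil_lt_add_one (show (0 : ℝ) ≤ (n : ℝ) / 2 by positivity)
    rw [← hk] at h
    have h2 : (2 * k : ℝ) < n + 2 := by linarith
    have h3 : 2 * k < n + 2 := by exact_mod_cast h2
    have h4 : 2 * k ≤ n + 1 := by omega
    have h5 : (2 * k : ℝ) ≤ n + 1 := by exact_mod_cast h4
    linarith
  have hk0 : (0 : ℝ) < k := by linarith
  have hL := log_two_pos
  have hL1 : Real.log 2 ≤ 1 := by have := Real.log_two_lt_d9; linarith
  set u := Real.log 2 / k with hu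
  have hu0 : 0 < u := by positivity
  have e1 : (2 : ℝ) ^ (1 - 1 / (k : ℝ)) = 2 * Real.exp (-u) := by
    rw [Real.rpow_sub (by norm_num), Real.rpow_one, Real.rpow_def_of_pos (by norm_num : (0 : ℝ) < 2),
      Real.exp_neg, hu]
    rw [mul_one_div]
    rfl
  rw [e1]
  have e2 : Real.exp (-u) ≤ 1 / (1 + u) := by
    rw [Real.exp_neg, one_div]
    apply inv_anti₀ (by linarith)
    linarith [Real.add_one_le_exp u]
  have e3 : 2 * (1 / (1 + u)) = 2 - 2 * (u / (1 + u)) := by field_simp; ring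
  have e4 : 2 * Real.log 2 / (n + 3) ≤ u / (1 + u) := by
    have : u / (1 + u) = Real.log 2 / (k + Real.log 2) := by
      rw [hu]; field_simp
    rw [this, div_le_div_iff₀ (by linarith) (by linarith)]
    have h2 : 2 * (k + Real.log 2) ≤ n + 3 := by linarith
    nlinarith
  have e5 : 4 * Real.log 2 / (n + 3) = 2 * (2 * Real.log 2 / (n + 3)) := by ring
  rw [e5]
  linarith

lemma le_discMin {n : ℕ} (hn : 1 ≤ n) : 2 - 4 * Real.log 2 / n ≤ discMin n := by
  rw [discMin_eq hn]
  set k := ⌈(n : ℝ) / 2⌉₊ with hk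
  have hn0 : (1 : ℝ) ≤ n := by exact_mod_cast hn
  have hk1 : (n : ℝ) / 2 ≤ k := Nat.le_ceil _
  have hk0 : (0 : ℝ) < k := by linarith
  have hL := log_two_pos
  set u := Real.log 2 / k with hu
  have e1 : (2 : ℝ) ^ (1 - 1 / (k : ℝ)) = 2 * Real.exp (-u) := by
    rw [Real.rpow_sub (by norm_num), Real.rpow_one, Real.rpow_def_of_pos (by norm_num : (0 : ℝ) < 2),
      Real.exp_neg, hu]
    rw [mul_one_div]
    rfl
  rw [e1]
  have e2 : 1 - u ≤ Real.exp (-u) := by linarith [Real.add_one_le_exp (-u)]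
  have e3 : u ≤ 2 * Real.log 2 / n := by
    rw [hu, div_le_div_iff₀ hk0 (by linarith)]
    nlinarith
  have e4 : 4 * Real.log 2 / n = 2 * (2 * Real.log 2 / n) := by ring
  rw [e4]
  linarith

/-- The lower bound on the upper limit. -/
theorem limsup_lower {S : ℕ → Finset (ℝ × ℝ)} (hS : IsInfStrategy S) {ε : ℝ} (hε : 0 < ε) :
    ∃ᶠ n : ℕ in atTop, 4 * Real.log 2 - 3 / 2 - ε ≤ n * (discUpTo S n - discMin n) := by
  by_contra hcon
  rw [not_frequently] at hcon
  simp only [not_le] at hcon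
  obtain ⟨N0, hN0⟩ := eventually_atTop.mp hcon
  have hL := log_two_pos
  have hL1 : Real.log 2 ≤ 1 := by have := Real.log_two_lt_d9; linarith
  obtain ⟨N1, hN1⟩ := exists_nat_gt (24 / ε)
  have hN1' : 24 < N1 * ε := by rwa [div_lt_iff₀ hε] at hN1
  set N := max (max N0 N1) 1 with hN
  -- the discrepancies are small
  have hbd : ∀ n : ℕ, N ≤ n → discUpTo S n ≤ 2 - (3 / 2 + ε / 2) / n := by
    intro n hn
    have hn0 : N0 ≤ n := (le_max_left _ _).trans ((le_max_left _ _).trans hn)
    have hn1 : N1 ≤ n := (le_max_right _ _).trans ((le_max_left _ _).trans hn)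
    have hn2 : 1 ≤ n := (le_max_right _ _).trans hn
    have h1 := hN0 n hn0
    have h2 := discMin_le hn2
    have hnr : (1 : ℝ) ≤ n := by exact_mod_cast hn2
    have hnN : (N1 : ℝ) ≤ n := by exact_mod_cast hn1
    have h3 : discUpTo S n - discMin n < (4 * Real.log 2 - 3 / 2 - ε) / n := by
      rw [lt_div_iff₀ (by linarith)]
      linarith
    have h4 : (4 * Real.log 2 - 3 / 2 - ε) / n + (2 - 4 * Real.log 2 / (n + 3)) ≤
        2 - (3 / 2 + ε / 2) / n := by
      have : 2 - (3 / 2 + ε / 2) / n - ((4 * Real.log 2 - 3 / 2 - ε) / n +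
          (2 - 4 * Real.log 2 / (n + 3))) = (ε / 2 * (n + 3) - 12 * Real.log 2) / (n * (n + 3)) := by
        field_simp
        ring
      rw [← sub_nonneg, this]
      apply div_nonneg _ (by positivity)
      nlinarith
    linarith
  have hdisc2 : ∀ t, 1 ≤ t → disc (S t) < 2 := by
    intro t ht
    have h1 : disc (S t) ≤ discUpTo S (max N t) := disc_le_discUpTo ht (le_max_right _ _)
    have h2 := hbd (max N t) (le_max_left _ _)
    have h3 : 0 < (3 / 2 + ε / 2) / ((max N t : ℕ) : ℝ) := by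
      have : 0 < max N t := lt_of_lt_of_le ht (le_max_right _ _)
      positivity
    linarith
  obtain ⟨x, τ, σ, J, hC, hstep, hlow, -⟩ := exists_cutSeq hS hdisc2
  have hσ0 : ∀ t, 1 ≤ t → 0 < x (σ t) := fun t ht =>
    hC.pos (σ t) (by have := hC.lt1 t ht; have := hC.lt2 t ht; omega)
  have hfin := hC.const_le (c := 3 / 2 + ε / 2)
    (fun t ht => by
      have e1 := hstep t ht
      have e2 := hdisc2 (t + 1) (by omega)
      have e3 := hσ0 t ht
      nlinarith) hlow
    ⟨N, le_max_right _ _, fun t ht => by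
      have ht0 : 1 ≤ t := (le_max_right _ _).trans ht
      have e1 := hstep t ht0
      have e2 := hbd (t + 1) (by omega)
      have e3 : disc (S (t + 1)) ≤ discUpTo S (t + 1) := disc_le_discUpTo (by omega) le_rfl
      have e4 := hσ0 t ht0
      push_cast at e2
      have e5 : disc (S (t + 1)) ≤ 2 - (3 / 2 + ε / 2) / (t + 1) := e3.trans e2
      exact e1.trans (mul_le_mul_of_nonneg_right e5 e4.le)⟩
  linarith

/-- The lengths of the strategy of de Bruijn and Erdős. -/
noncomputable def ll (t : ℕ) : ℝ := Real.log (1 + 1 / t) / Real.log 2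

lemma ll_pos {t : ℕ} (ht : 1 ≤ t) : 0 < ll t := by
  have : (0 : ℝ) < 1 / t := by positivity
  exact div_pos (Real.log_pos (by linarith)) log_two_pos

lemma ll_anti {i j : ℕ} (hi : 1 ≤ i) (hij : i ≤ j) : ll j ≤ ll i := by
  apply div_le_div_of_nonneg_right _ log_two_pos.le
  have h1 : (1 : ℝ) ≤ i := by exact_mod_cast hi
  have h2 : (i : ℝ) ≤ j := by exact_mod_cast hij
  apply Real.log_le_log (by positivity)
  have : 1 / (j : ℝ) ≤ 1 / i := div_le_div_of_nonneg_left one_pos.le (by linarith) h2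
  linarith

lemma ll_split {t : ℕ} (ht : 1 ≤ t) : ll t = ll (2 * t) + ll (2 * t + 1) := by
  unfold ll
  rw [← add_div]
  congr 1
  have h1 : (1 : ℝ) ≤ t := by exact_mod_cast ht
  rw [← Real.log_mul (by positivity) (by positivity)]
  congr 1
  push_cast
  field_simp
  ring

/-- `-log (1 - y) ≥ y + y ^ 2 / 2`. -/
lemma neg_log_ge {y : ℝ} (hy0 : 0 ≤ y) (hy1 : y < 1) : y + y ^ 2 / 2 ≤ -Real.log (1 - y) := by
  have h1 : Real.log (1 - y) ≤ -(y + y ^ 2 / 2) := by
    rw [Real.log_le_iff_le_exp (by linarith)]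
    -- exp (-z) with z = y + y^2/2 ; use convexity bounds
    have hz : (0 : ℝ) ≤ y + y ^ 2 / 2 := by positivity
    -- (1 - y) exp(z) ≤ 1
    have hmono : ∀ w ∈ Set.Ico (0 : ℝ) 1, (1 - w) * Real.exp (w + w ^ 2 / 2) ≤ 1 := by
      intro w hw
      have hder : ∀ v : ℝ, HasDerivAt (fun v => (1 - v) * Real.exp (v + v ^ 2 / 2))
          (-(v ^ 2) * Real.exp (v + v ^ 2 / 2)) v := by
        intro v
        have g1 : HasDerivAt (fun v : ℝ => 1 - v) (-1) v := by
          simpa using (hasDerivAt_id v).const_sub 1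
        have g2 : HasDerivAt (fun v : ℝ => v + v ^ 2 / 2) (1 + v) v := by
          have := (hasDerivAt_id' v).add ((hasDerivAt_pow 2 v).div_const 2)
          have e : (1 : ℝ) + v = 1 + ((2 : ℕ) : ℝ) * v ^ (2 - 1) / 2 := by norm_num
          rw [e]
          exact this
        have g3 := g1.mul g2.exp
        have e : -(v ^ 2) * Real.exp (v + v ^ 2 / 2) =
            -1 * Real.exp (v + v ^ 2 / 2) + (1 - v) * (Real.exp (v + v ^ 2 / 2) * (1 + v)) := by ring
        rw [e]
        exact g3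
      have hanti : AntitoneOn (fun v => (1 - v) * Real.exp (v + v ^ 2 / 2)) (Set.Icc 0 w) := by
        apply antitoneOn_of_deriv_nonpos (convex_Icc 0 w)
        · exact fun v _ => (hder v).continuousAt.continuousWithinAt
        · exact fun v _ => (hder v).differentiableAt.differentiableWithinAt
        · intro v _
          rw [(hder v).deriv]
          have := Real.exp_pos (v + v ^ 2 / 2)
          nlinarith [sq_nonneg v]
      have := hanti (Set.left_mem_Icc.mpr hw.1) (Set.right_mem_Icc.mpr hw.1) hw.1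
      simpa using this
    have h2 := hmono y ⟨hy0, hy1⟩
    have h3 : (1 - y) * Real.exp (y + y ^ 2 / 2) * Real.exp (-(y + y ^ 2 / 2)) ≤
        1 * Real.exp (-(y + y ^ 2 / 2)) := mul_le_mul_of_nonneg_right h2 (Real.exp_pos _).le
    rw [mul_assoc, ← Real.exp_add, add_neg_cancel, Real.exp_zero, mul_one, one_mul] at h3
    exact h3
  linarith

/-- `log (1 + y) ≤ y - y ^ 2 / 2 + y ^ 3 / 3`. -/
lemma log_one_add_le {y : ℝ} (hy0 : 0 ≤ y) : Real.log (1 + y) ≤ y - y ^ 2 / 2 + y ^ 3 / 3 := by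
  have hder : ∀ v : ℝ, 0 ≤ v → HasDerivAt (fun v => v - v ^ 2 / 2 + v ^ 3 / 3 - Real.log (1 + v))
      (1 - v + v ^ 2 - 1 / (1 + v)) v := by
    intro v hv
    have g1 : HasDerivAt (fun v : ℝ => v - v ^ 2 / 2 + v ^ 3 / 3) (1 - v + v ^ 2) v := by
      have := ((hasDerivAt_id' v).sub ((hasDerivAt_pow 2 v).div_const 2)).add
        ((hasDerivAt_pow 3 v).div_const 3)
      have e : 1 - v + v ^ 2 = 1 - ((2 : ℕ) : ℝ) * v ^ (2 - 1) / 2 +
          ((3 : ℕ) : ℝ) * v ^ (3 - 1) / 3 := by norm_num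
      rw [e]
      exact this
    have g2 : HasDerivAt (fun v : ℝ => Real.log (1 + v)) (1 / (1 + v)) v := by
      have := ((hasDerivAt_id v).const_add 1).log (by simp only [id]; linarith)
      simpa using this
    exact g1.sub g2
  have hmono : MonotoneOn (fun v => v - v ^ 2 / 2 + v ^ 3 / 3 - Real.log (1 + v))
      (Set.Icc 0 y) := by
    apply monotoneOn_of_deriv_nonneg (convex_Icc 0 y)
    · exact fun v hv => (hder v hv.1).continuousAt.continuousWithinAt
    · intro v hv
      rw [interior_Icc] at hv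
      exact (hder v hv.1.le).differentiableAt.differentiableWithinAt
    · intro v hv
      rw [interior_Icc] at hv
      rw [(hder v hv.1.le).deriv]
      have hv0 := hv.1
      have : 1 - v + v ^ 2 - 1 / (1 + v) = v ^ 3 / (1 + v) := by field_simp; ring
      rw [this]
      positivity
  have := hmono (Set.left_mem_Icc.mpr hy0) (Set.right_mem_Icc.mpr hy0) hy0
  simp at this
  linarith

/-- The strategy of de Bruijn and Erdős. -/
theorem limsup_upper : ∃ S, IsInfStrategy S ∧ ∀ ε : ℝ, 0 < ε →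
    ∀ᶠ n : ℕ in atTop, n * (discUpTo S n - discMin n) ≤ 4 * Real.log 2 - 3 / 2 + ε := by
  have hl1 : ll 1 = 1 := by
    unfold ll
    have : (1 : ℝ) + 1 / ((1 : ℕ) : ℝ) = 2 := by norm_num
    rw [this, div_self log_two_pos.ne']
  obtain ⟨S, hS, hl⟩ := realize ll hl1 (fun j hj => ll_pos hj) (fun t ht => ll_split ht)
  have hdisc : ∀ t, 1 ≤ t → disc (S t) ≤ ll t / ll (2 * t - 1) := by
    intro t ht
    apply disc_le_of_lens (hS.part t ht) ht (hl t ht)
    intro i j hi1 hi2 hj1 hj2
    have p1 := ll_pos ht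
    have p2 := ll_pos (t := 2 * t - 1) (by omega)
    calc ll i ≤ ll t := ll_anti ht hi1
      _ = ll t / ll (2 * t - 1) * ll (2 * t - 1) := by field_simp
      _ ≤ ll t / ll (2 * t - 1) * ll j := by
        apply mul_le_mul_of_nonneg_left (ll_anti (by omega) (by omega)) (by positivity)
  have hlt2 : ∀ t, 1 ≤ t → ll t / ll (2 * t - 1) < 2 := by
    intro t ht
    have p2 := ll_pos (t := 2 * t - 1) (by omega)
    rw [div_lt_iff₀ p2]
    have e1 := ll_split ht
    have e2 := ll_anti (i := 2 * t - 1) (j := 2 * t) (by omega) (by omega)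
    have e3 : ll (2 * t + 1) < ll (2 * t) := by
      unfold ll
      apply div_lt_div_of_pos_right _ log_two_pos
      have h1 : (1 : ℝ) ≤ t := by exact_mod_cast ht
      apply Real.log_lt_log (by positivity)
      push_cast
      have : 1 / (2 * (t : ℝ) + 1) < 1 / (2 * (t : ℝ)) :=
        div_lt_div_of_pos_left one_pos (by linarith) (by linarith)
      linarith
    linarith
  -- the sharp bound for large t
  have hbig : ∀ c : ℝ, 0 ≤ c → c < 3 / 2 → ∃ T : ℕ, 1 ≤ T ∧ ∀ t : ℕ, T ≤ t →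
      ll t / ll (2 * t - 1) ≤ 2 - c / t := by
    intro c hc0 hc
    obtain ⟨T, hT⟩ := exists_nat_gt ((1 / 3 + c / 8) / (3 / 4 - c / 2))
    have hT' : 1 / 3 + c / 8 < T * (3 / 4 - c / 2) := by
      rwa [div_lt_iff₀ (by linarith)] at hT
    refine ⟨max T 1, le_max_right _ _, fun t ht => ?_⟩
    have ht1 : 1 ≤ t := (le_max_right _ _).trans ht
    have ht2 : T ≤ t := (le_max_left _ _).trans ht
    have htr : (1 : ℝ) ≤ t := by exact_mod_cast ht1
    have htT : (T : ℝ) ≤ t := by exact_mod_cast ht2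
    have p2 := ll_pos (t := 2 * t - 1) (by omega)
    rw [div_le_iff₀ p2]
    unfold ll
    rw [← mul_div_assoc]
    apply div_le_div_of_nonneg_right _ log_two_pos.le
    have e1 := log_one_add_le (y := 1 / (t : ℝ)) (by positivity)
    have e2 := neg_log_ge (y := 1 / (2 * (t : ℝ))) (by positivity) (by
      rw [div_lt_one (by linarith)]; linarith)
    have e3 : Real.log (1 + 1 / ((2 * t - 1 : ℕ) : ℝ)) = -Real.log (1 - 1 / (2 * (t : ℝ))) := by
      rw [← Real.log_inv]
      congr 1
      rw [Nat.cast_sub (by omega)]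
      push_cast
      have h1 : (2 * (t : ℝ) - 1) ≠ 0 := by linarith
      have h2 : 1 - 1 / (2 * (t : ℝ)) = (2 * t - 1) / (2 * t) := by field_simp
      rw [h2, inv_div]
      field_simp
      ring
    rw [e3]
    have hct : c / t ≤ 2 := by
      rw [div_le_iff₀ (by linarith)]
      linarith
    have e4 : (2 - c / t) * (1 / (2 * (t : ℝ)) + (1 / (2 * (t : ℝ))) ^ 2 / 2) ≤
        (2 - c / t) * -Real.log (1 - 1 / (2 * (t : ℝ))) :=
      mul_le_mul_of_nonneg_left e2 (by linarith)
    refine e1.trans (le_trans ?_ e4)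
    rw [← sub_nonneg]
    have : (2 - c / t) * (1 / (2 * (t : ℝ)) + (1 / (2 * (t : ℝ))) ^ 2 / 2) -
        (1 / (t : ℝ) - (1 / (t : ℝ)) ^ 2 / 2 + (1 / (t : ℝ)) ^ 3 / 3) =
        ((3 / 4 - c / 2) * t - (1 / 3 + c / 8)) / t ^ 3 := by
      field_simp
      ring
    rw [this]
    apply div_nonneg _ (by positivity)
    nlinarith
  refine ⟨S, hS, fun ε hε => ?_⟩
  set c := max 0 (3 / 2 - ε) with hc
  obtain ⟨T, hT1, hT⟩ := hbig c (le_max_left _ _) (by rw [hc, max_lt_iff]; constructor <;> linarith)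
  -- a uniform bound for t < T
  obtain ⟨d, hd0, hd⟩ : ∃ d : ℝ, 0 < d ∧ ∀ t, 1 ≤ t → t < T → ll t / ll (2 * t - 1) ≤ 2 - d := by
    have : ∀ T : ℕ, ∃ d : ℝ, 0 < d ∧ ∀ t, 1 ≤ t → t < T → ll t / ll (2 * t - 1) ≤ 2 - d := by
      intro T
      induction T with
      | zero => exact ⟨1, one_pos, fun t _ h => absurd h (by omega)⟩
      | succ T ih =>
        obtain ⟨d, hd0, hd⟩ := ih
        by_cases hT0 : 1 ≤ T
        · refine ⟨min d (2 - ll T / ll (2 * T - 1)), lt_min hd0 (by linarith [hlt2 T hT0]), ?_⟩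
          intro t ht1 ht2
          rcases (Nat.lt_succ_iff.mp ht2).lt_or_eq with h | h
          · have := hd t ht1 h
            have := min_le_left d (2 - ll T / ll (2 * T - 1))
            linarith
          · have := min_le_right d (2 - ll T / ll (2 * T - 1))
            rw [h]
            linarith
        · refine ⟨1, one_pos, fun t h1 h2 => absurd h2 (by omega)⟩
    exact this T
  obtain ⟨N, hN⟩ := exists_nat_gt (c / d)
  have hN' : c < N * d := by rwa [div_lt_iff₀ hd0] at hN
  filter_upwards [eventually_ge_atTop (max N 1)] with n hn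
  have hn1 : N ≤ n := (le_max_left _ _).trans hn
  have hn2 : 1 ≤ n := (le_max_right _ _).trans hn
  have hnr : (1 : ℝ) ≤ n := by exact_mod_cast hn2
  have hnN : (N : ℝ) ≤ n := by exact_mod_cast hn1
  have hc0 : 0 ≤ c := le_max_left _ _
  have hup : discUpTo S n ≤ 2 - c / n := by
    apply discUpTo_le hn2
    intro t ht1 ht2
    refine (hdisc t ht1).trans ?_
    have htr : (1 : ℝ) ≤ t := by exact_mod_cast ht1
    by_cases h : T ≤ t
    · refine (hT t h).trans ?_
      have : c / n ≤ c / t := div_le_div_of_nonneg_left hc0 (by linarith) (by exact_mod_cast ht2)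
      linarith
    · refine (hd t ht1 (by omega)).trans ?_
      have : c / n ≤ d := by
        rw [div_le_iff₀ (by linarith)]
        nlinarith
      linarith
  have hlo := le_discMin hn2
  have h1 : discUpTo S n - discMin n ≤ (4 * Real.log 2 - c) / n := by
    have : (4 * Real.log 2 - c) / n = (2 - c / n) - (2 - 4 * Real.log 2 / n) := by ring
    rw [this]
    linarith
  have h2 : n * (discUpTo S n - discMin n) ≤ 4 * Real.log 2 - c := by
    rw [le_div_iff₀ (by linarith)] at h1
    linarith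
  have h3 : 3 / 2 - ε ≤ c := le_max_right _ _
  linarith

end Pool.Agent.H36.Split
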