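import Pool.Agent.H36.SplitBasic

namespace Pool.Agent.H36.Split

open Finset

/-- the multiset of lengths -/
noncomputable def lens (P : Finset (ℝ × ℝ)) : Multiset ℝ := P.val.map (fun I => I.2 - I.1)

lemma mem_lens {P : Finset (ℝ × ℝ)} {l : ℝ} : l ∈ lens P ↔ ∃ I ∈ P, len I = l := by
  simp [lens, len]

lemma isPartition_unit : IsPartition {((0 : ℝ), (1 : ℝ))} := by
  refine ⟨?_, ?_, ?_⟩
  · intro I hI
    rw [Finset.mem_singleton] at hI
    subst hI
    norm_num
  · intro I hI J hJ hne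
    rw [Finset.mem_singleton] at hI hJ
    exact absurd (hI.trans hJ.symm) hne
  · simp

lemma cut_notMem1 {P : Finset (ℝ × ℝ)} (hP : IsPartition P) {a b c : ℝ} (hac : a < c)
    (hcb : c < b) (hab : (a, b) ∈ P) : (c, b) ∉ P.erase (a, b) := by
  intro h
  rw [Finset.mem_erase] at h
  have hd := hP.disj _ h.2 _ hab h.1
  rw [Set.disjoint_left] at hd
  exact hd (a := (c + b) / 2) ⟨by simp only; linarith, by simp only; linarith⟩
    ⟨by simp only; linarith, by simp only; linarith⟩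

lemma cut_notMem2 {P : Finset (ℝ × ℝ)} (hP : IsPartition P) {a b c : ℝ} (hac : a < c)
    (hcb : c < b) (hab : (a, b) ∈ P) : (a, c) ∉ insert (c, b) (P.erase (a, b)) := by
  intro h
  rw [Finset.mem_insert, Finset.mem_erase] at h
  rcases h with h | h
  · rw [Prod.mk.injEq] at h
    linarith [h.1]
  · have hd := hP.disj _ h.2 _ hab h.1
    rw [Set.disjoint_left] at hd
    exact hd (a := (a + c) / 2) ⟨by simp only; linarith, by simp only; linarith⟩
      ⟨by simp only; linarith, by simp only; linarith⟩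

lemma isPartition_cut {P : Finset (ℝ × ℝ)} (hP : IsPartition P) {a b c : ℝ} (hac : a < c)
    (hcb : c < b) (hab : (a, b) ∈ P) :
    IsPartition (insert (a, c) (insert (c, b) (P.erase (a, b)))) := by
  have key1 : ∀ J ∈ P.erase (a, b), Disjoint (Set.Ioo a c) (Set.Ioo J.1 J.2) := by
    intro J hJ
    rw [Finset.mem_erase] at hJ
    have := hP.disj _ hab _ hJ.2 hJ.1.symm
    exact this.mono_left (Set.Ioo_subset_Ioo le_rfl hcb.le)
  have key2 : ∀ J ∈ P.erase (a, b), Disjoint (Set.Ioo c b) (Set.Ioo J.1 J.2) := by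
    intro J hJ
    rw [Finset.mem_erase] at hJ
    have := hP.disj _ hab _ hJ.2 hJ.1.symm
    exact this.mono_left (Set.Ioo_subset_Ioo hac.le le_rfl)
  have key3 : Disjoint (Set.Ioo a c) (Set.Ioo c b) := by
    rw [Set.disjoint_left]
    intro x h1 h2
    exact absurd (h1.2.trans h2.1) (lt_irrefl _)
  refine ⟨?_, ?_, ?_⟩
  · intro I hI
    rw [Finset.mem_insert, Finset.mem_insert] at hI
    rcases hI with rfl | rfl | hI
    · exact hac
    · exact hcb
    · exact hP.pos I (Finset.mem_of_mem_erase hI)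
  · intro I hI J hJ hne
    rw [Finset.mem_insert, Finset.mem_insert] at hI hJ
    rcases hI with rfl | rfl | hI <;> rcases hJ with rfl | rfl | hJ
    · exact absurd rfl hne
    · exact key3
    · exact key1 J hJ
    · exact key3.symm
    · exact absurd rfl hne
    · exact key2 J hJ
    · exact (key1 I hI).symm
    · exact (key2 I hI).symm
    · exact hP.disj I (Finset.mem_of_mem_erase hI) J (Finset.mem_of_mem_erase hJ) hne
  · rw [Finset.set_biUnion_insert, Finset.set_biUnion_insert, ← Set.union_assoc]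
    have e1 : Set.Icc (a, c).1 (a, c).2 ∪ Set.Icc (c, b).1 (c, b).2 = Set.Icc a b :=
      Set.Icc_union_Icc_eq_Icc hac.le hcb.le
    rw [e1, ← hP.union]
    conv_rhs => rw [← Finset.insert_erase hab, Finset.set_biUnion_insert]

lemma card_cut {P : Finset (ℝ × ℝ)} (hP : IsPartition P) {a b c : ℝ} (hac : a < c)
    (hcb : c < b) (hab : (a, b) ∈ P) :
    (insert (a, c) (insert (c, b) (P.erase (a, b)))).card = P.card + 1 := by
  rw [Finset.card_insert_of_notMem (cut_notMem2 hP hac hcb hab),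
    Finset.card_insert_of_notMem (cut_notMem1 hP hac hcb hab), Finset.card_erase_of_mem hab]
  have : 0 < P.card := Finset.card_pos.mpr ⟨_, hab⟩
  omega

lemma lens_cut {P : Finset (ℝ × ℝ)} (hP : IsPartition P) {a b c : ℝ} (hac : a < c)
    (hcb : c < b) (hab : (a, b) ∈ P) :
    lens (insert (a, c) (insert (c, b) (P.erase (a, b)))) =
      (c - a) ::ₘ (b - c) ::ₘ (lens P).erase (b - a) := by
  have e : lens P = (b - a) ::ₘ ((P.erase (a, b)).val.map (fun I => I.2 - I.1)) := by
    unfold lens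
    rw [Finset.erase_val]
    conv_lhs => rw [← Multiset.cons_erase (Finset.mem_val.mpr hab)]
    rw [Multiset.map_cons]
  rw [e, Multiset.erase_cons_head]
  unfold lens
  rw [Finset.insert_val_of_notMem (cut_notMem2 hP hac hcb hab),
    Finset.insert_val_of_notMem (cut_notMem1 hP hac hcb hab), Multiset.map_cons,
    Multiset.map_cons]

lemma cut_lift {P : Finset (ℝ × ℝ)} (hP : IsPartition P) {x y : ℝ} (hx : 0 < x) (hy : 0 < y)
    (h : x + y ∈ lens P) :
    ∃ Q, IsPartition Q ∧ Cuts P Q ∧ Q.card = P.card + 1 ∧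
      lens Q = x ::ₘ y ::ₘ (lens P).erase (x + y) := by
  obtain ⟨⟨a, b⟩, hab, hl⟩ := mem_lens.mp h
  simp only [len] at hl
  have hac : a < a + x := by linarith
  have hcb : a + x < b := by linarith
  refine ⟨_, isPartition_cut hP hac hcb hab, ⟨a, b, a + x, hac, hcb, hab, rfl⟩,
    card_cut hP hac hcb hab, ?_⟩
  rw [lens_cut hP hac hcb hab]
  have e1 : a + x - a = x := by ring
  have e2 : b - (a + x) = y := by linarith
  rw [e1, e2, hl]

/-- realisation of a first-in-first-out strategy with prescribed lengths -/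
lemma realize (l : ℕ → ℝ) (h1 : l 1 = 1) (hpos : ∀ j, 1 ≤ j → 0 < l j)
    (hs : ∀ t, 1 ≤ t → l t = l (2 * t) + l (2 * t + 1)) :
    ∃ S, IsInfStrategy S ∧ ∀ t, 1 ≤ t → lens (S t) = (Finset.Ico t (2 * t)).val.map l := by
  classical
  let Good : ℕ → Finset (ℝ × ℝ) → Prop := fun t P =>
    IsPartition P ∧ P.card = t + 1 ∧ lens P = (Finset.Ico (t + 1) (2 * (t + 1))).val.map l
  have step : ∀ t (P : {P // Good t P}), ∃ Q : {Q // Good (t + 1) Q}, Cuts P.1 Q.1 := by
    rintro t ⟨P, hP, hc, hl⟩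
    have hmem : l (2 * (t + 1)) + l (2 * (t + 1) + 1) ∈ lens P := by
      rw [← hs (t + 1) (by omega), hl, Multiset.mem_map]
      exact ⟨t + 1, by simp, rfl⟩
    obtain ⟨Q, hQ, hcut, hcard, hlQ⟩ := cut_lift hP (hpos _ (by omega)) (hpos _ (by omega)) hmem
    refine ⟨⟨Q, hQ, by omega, ?_⟩, hcut⟩
    rw [hlQ, ← hs (t + 1) (by omega), hl]
    have e1 : Finset.Ico (t + 1) (2 * (t + 1)) = insert (t + 1) (Finset.Ico (t + 2) (2 * t + 2)) := by
      ext i; simp only [Finset.mem_insert, Finset.mem_Ico]; omega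
    have e2 : Finset.Ico (t + 1 + 1) (2 * (t + 1 + 1)) =
        insert (2 * (t + 1)) (insert (2 * (t + 1) + 1) (Finset.Ico (t + 2) (2 * t + 2))) := by
      ext i; simp only [Finset.mem_insert, Finset.mem_Ico]; omega
    rw [e1, e2]
    rw [Finset.insert_val_of_notMem (by rw [Finset.mem_Ico]; omega),
      Finset.insert_val_of_notMem (by rw [Finset.mem_insert, Finset.mem_Ico]; omega),
      Finset.insert_val_of_notMem (by rw [Finset.mem_Ico]; omega), Multiset.map_cons, Multiset.map_cons,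
      Multiset.map_cons, Multiset.erase_cons_head]
  choose nxt hn using step
  have h0 : Good 0 {((0 : ℝ), (1 : ℝ))} := by
    refine ⟨isPartition_unit, by simp, ?_⟩
    have : Finset.Ico (0 + 1) (2 * (0 + 1)) = {1} := by decide
    rw [this]
    simp [lens, h1]
  let F : ∀ t, {P // Good t P} := fun t => Nat.rec ⟨_, h0⟩ (fun t P => nxt t P) t
  have hF : ∀ t, F (t + 1) = nxt t (F t) := fun t => rfl
  refine ⟨fun i => (F (i - 1)).1, ⟨?_, ?_, ?_⟩, ?_⟩
  · intro i hi
    exact (F (i - 1)).2.1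
  · intro i hi
    have := (F (i - 1)).2.2.1
    omega
  · intro i hi
    obtain ⟨j, rfl⟩ : ∃ j, i = j + 1 := ⟨i - 1, by omega⟩
    have : (F (j + 1 + 1 - 1)).1 = (nxt j (F j)).1 := by
      rw [show j + 1 + 1 - 1 = j + 1 by omega, hF]
    rw [this]
    exact hn j (F j)
  · intro i hi
    obtain ⟨j, rfl⟩ : ∃ j, i = j + 1 := ⟨i - 1, by omega⟩
    exact (F j).2.2.2

lemma disc_le_of_lens {P : Finset (ℝ × ℝ)} (hP : IsPartition P) {t : ℕ} (ht : 1 ≤ t) {l : ℕ → ℝ}
    (hl : lens P = (Finset.Ico t (2 * t)).val.map l) {r : ℝ}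
    (h : ∀ i j, t ≤ i → i < 2 * t → t ≤ j → j < 2 * t → l i ≤ r * l j) : disc P ≤ r := by
  have hne : P.Nonempty := by
    have : l t ∈ lens P := by
      rw [hl, Multiset.mem_map]
      exact ⟨t, by simp; omega, rfl⟩
    obtain ⟨I, hI, -⟩ := mem_lens.mp this
    exact ⟨I, hI⟩
  apply disc_le hP hne
  intro I hI J hJ
  have h1 : len I ∈ lens P := mem_lens.mpr ⟨I, hI, rfl⟩
  have h2 : len J ∈ lens P := mem_lens.mpr ⟨J, hJ, rfl⟩
  rw [hl, Multiset.mem_map] at h1 h2
  obtain ⟨i, hi, hi'⟩ := h1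
  obtain ⟨j, hj, hj'⟩ := h2
  rw [Finset.mem_val, Finset.mem_Ico] at hi hj
  rw [← hi', ← hj']
  exact h i j hi.1 hi.2 hj.1 hj.2

lemma IsInfStrategy.toStrategy {S : ℕ → Finset (ℝ × ℝ)} (hS : IsInfStrategy S) (n : ℕ) :
    IsStrategy n S :=
  ⟨fun i h _ => hS.part i h, fun i h _ => hS.card i h, fun i h _ => hS.cut i h⟩

end Pool.Agent.H36.Split
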