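import Pool.Agent.H36.SplitRealize

namespace Pool.Agent.H36.Split

open Finset

/-- The tail of the optimal length sequence: geometric on `[k, 2k)`, then halving. -/
noncomputable def gu (k : ℕ) (q : ℝ) (j : ℕ) : ℝ :=
  if 2 * k ≤ j ∧ 0 < j then gu k q (j / 2) / 2 else q ^ (j - k)
termination_by j
decreasing_by omega

/-- The (unnormalised) optimal length sequence. -/
noncomputable def gd (k : ℕ) (q : ℝ) (j : ℕ) : ℝ :=
  if 1 ≤ j ∧ j < k then gd k q (2 * j) + gd k q (2 * j + 1) else gu k q j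
termination_by k - j
decreasing_by all_goals omega

lemma gu_lo {k : ℕ} {q : ℝ} {j : ℕ} (h : j < 2 * k) : gu k q j = q ^ (j - k) := by
  rw [gu, if_neg (by omega)]

lemma gu_hi {k : ℕ} {q : ℝ} {j : ℕ} (hk : 1 ≤ k) (h : 2 * k ≤ j) :
    gu k q j = gu k q (j / 2) / 2 := by
  rw [gu, if_pos (by omega)]

lemma gd_lo {k : ℕ} {q : ℝ} {j : ℕ} (h1 : 1 ≤ j) (h : j < k) :
    gd k q j = gd k q (2 * j) + gd k q (2 * j + 1) := by
  rw [gd, if_pos (by omega)]

lemma gd_hi {k : ℕ} {q : ℝ} {j : ℕ} (h : k ≤ j) : gd k q j = gu k q j := by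
  rw [gd, if_neg (by omega)]

lemma gd_split {k : ℕ} {q : ℝ} (hk : 1 ≤ k) {j : ℕ} (h1 : 1 ≤ j) :
    gd k q j = gd k q (2 * j) + gd k q (2 * j + 1) := by
  by_cases h : j < k
  · exact gd_lo h1 h
  · rw [gd_hi (by omega : k ≤ j), gd_hi (by omega : k ≤ 2 * j), gd_hi (by omega : k ≤ 2 * j + 1),
      gu_hi hk (by omega : 2 * k ≤ 2 * j), gu_hi hk (by omega : 2 * k ≤ 2 * j + 1)]
    rw [show 2 * j / 2 = j by omega, show (2 * j + 1) / 2 = j by omega]
    ring

lemma gu_pos {k : ℕ} {q : ℝ} (hk : 1 ≤ k) (hq : 0 < q) (j : ℕ) : 0 < gu k q j := by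
  induction j using Nat.strong_induction_on with
  | _ j ih =>
    by_cases h : j < 2 * k
    · rw [gu_lo h]; positivity
    · rw [gu_hi hk (by omega)]
      have := ih (j / 2) (by omega)
      linarith

lemma gd_pos {k : ℕ} {q : ℝ} (hk : 1 ≤ k) (hq : 0 < q) (j : ℕ) : 0 < gd k q j := by
  induction h : k - j using Nat.strong_induction_on generalizing j with
  | _ m ih =>
    by_cases h' : 1 ≤ j ∧ j < k
    · rw [gd_lo h'.1 h'.2]
      have h1 := ih (k - 2 * j) (by omega) (2 * j) rfl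
      have h2 := ih (k - (2 * j + 1)) (by omega) (2 * j + 1) rfl
      linarith
    · rw [gd, if_neg h']
      exact gu_pos hk hq j

/-- the ratio claim -/
lemma gd_ratio {k : ℕ} {q : ℝ} (hk : 1 ≤ k) (hq : 0 < q) (hq1 : q ≤ 1) (hqk : 2 * q ^ k = 1)
    (j : ℕ) (h1 : 1 ≤ j) (h2 : j < 2 * k) : gd k q (j + 1) ≤ q * gd k q j := by
  induction h : 2 * k - j using Nat.strong_induction_on generalizing j with
  | _ m ih =>
    by_cases hjk : k ≤ j
    · rw [gd_hi hjk, gd_hi (by omega : k ≤ j + 1), gu_lo h2]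
      by_cases hj : j + 1 < 2 * k
      · rw [gu_lo hj, ← pow_succ']
        rw [show j - k + 1 = j + 1 - k by omega]
      · rw [gu_hi hk (by omega : 2 * k ≤ j + 1), show (j + 1) / 2 = k by omega, gu_lo (by omega),
          ← pow_succ', show j - k + 1 = k by omega]
        rw [Nat.sub_self, pow_zero]
        linarith
    · have hsj := gd_lo (k := k) (q := q) h1 (by omega)
      by_cases hjk1 : j + 1 = k
      · rw [hjk1, gd_hi le_rfl, gu_lo (by omega), Nat.sub_self, pow_zero, hsj,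
          gd_hi (by omega), gd_hi (by omega), gu_lo (by omega), gu_lo (by omega)]
        have e1 : q * (q ^ (2 * j - k) + q ^ (2 * j + 1 - k)) =
            q ^ (2 * j - k + 1) + q ^ (2 * j + 1 - k + 1) := by ring
        rw [e1]
        have e2 : 2 * j + 1 - k + 1 = k := by omega
        have e3 : q ^ k ≤ q ^ (2 * j - k + 1) := pow_le_pow_of_le_one hq.le hq1 (by omega)
        rw [e2]
        linarith
      · rw [gd_lo (j := j + 1) (by omega) (by omega), hsj]
        have a1 := ih (2 * k - (2 * j)) (by omega) (2 * j) (by omega) (by omega) rfl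
        have a2 := ih (2 * k - (2 * j + 1)) (by omega) (2 * j + 1) (by omega) (by omega) rfl
        have a3 := ih (2 * k - (2 * j + 2)) (by omega) (2 * j + 2) (by omega) (by omega) rfl
        rw [show 2 * (j + 1) = 2 * j + 1 + 1 by ring]
        rw [show 2 * j + 2 + 1 = 2 * j + 1 + 1 + 1 by ring,
          show 2 * j + 2 = 2 * j + 1 + 1 by ring] at a3
        have p1 := gd_pos hk hq (2 * j)
        have p2 := gd_pos hk hq (2 * j + 1)
        have p3 := gd_pos hk hq (2 * j + 1 + 1)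
        have b1 : gd k q (2 * j + 1) ≤ gd k q (2 * j) := by nlinarith
        have b2 : gd k q (2 * j + 1 + 1) ≤ gd k q (2 * j + 1) := by nlinarith
        nlinarith

lemma gd_step {k : ℕ} {q : ℝ} (hk : 1 ≤ k) (hq : 0 < q) (hq1 : q ≤ 1) (hqk : 2 * q ^ k = 1)
    (j : ℕ) (h1 : 1 ≤ j) : gd k q (j + 1) ≤ gd k q j := by
  have hu : ∀ i, k ≤ i → gu k q (i + 1) ≤ gu k q i := by
    intro i
    induction i using Nat.strong_induction_on with
    | _ i ih =>
      intro hi
      by_cases h : i < 2 * k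
      · have := gd_ratio hk hq hq1 hqk i (by omega) h
        rw [gd_hi hi, gd_hi (by omega : k ≤ i + 1)] at this
        have p := gu_pos hk hq i
        nlinarith
      · rw [gu_hi hk (by omega : 2 * k ≤ i + 1), gu_hi hk (by omega : 2 * k ≤ i)]
        by_cases hpar : i % 2 = 0
        · rw [show (i + 1) / 2 = i / 2 by omega]
        · rw [show (i + 1) / 2 = i / 2 + 1 by omega]
          have := ih (i / 2) (by omega) (by omega)
          linarith
  by_cases h : j < 2 * k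
  · have := gd_ratio hk hq hq1 hqk j h1 h
    have p := gd_pos hk hq j
    nlinarith
  · rw [gd_hi (by omega : k ≤ j), gd_hi (by omega : k ≤ j + 1)]
    exact hu j (by omega)

lemma gd_anti {k : ℕ} {q : ℝ} (hk : 1 ≤ k) (hq : 0 < q) (hq1 : q ≤ 1) (hqk : 2 * q ^ k = 1)
    {i j : ℕ} (h1 : 1 ≤ i) (h : i ≤ j) : gd k q j ≤ gd k q i := by
  induction j, h using Nat.le_induction with
  | base => exact le_rfl
  | succ j hj ih => exact (gd_step hk hq hq1 hqk j (by omega)).trans ih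

lemma gd_disc {k : ℕ} {q : ℝ} (hk : 1 ≤ k) (hq : 0 < q) (hq1 : q ≤ 1) (hqk : 2 * q ^ k = 1)
    {t : ℕ} (h1 : 1 ≤ t) (h2 : t ≤ 2 * k) : gd k q t ≤ 2 * q * gd k q (2 * t - 1) := by
  by_cases hlt : t < k
  · have e := gd_lo (k := k) (q := q) h1 hlt
    have a1 := gd_ratio hk hq hq1 hqk (2 * t - 1) (by omega) (by omega)
    have a2 := gd_ratio hk hq hq1 hqk (2 * t) (by omega) (by omega)
    rw [show 2 * t - 1 + 1 = 2 * t by omega] at a1
    have p1 := gd_pos hk hq (2 * t)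
    have p2 := gd_pos hk hq (2 * t - 1)
    rw [e]
    nlinarith
  · by_cases heq : t = k
    · subst heq
      rw [gd_hi le_rfl, gd_hi (by omega), gu_lo (by omega), gu_lo (by omega), Nat.sub_self,
        pow_zero, mul_assoc, ← pow_succ', show 2 * t - 1 - t + 1 = t by omega]
      linarith
    · rw [gd_hi (by omega : k ≤ t), gd_hi (by omega : k ≤ 2 * t - 1),
        gu_hi hk (by omega : 2 * k ≤ 2 * t - 1), show (2 * t - 1) / 2 = t - 1 by omega,
        gu_lo (by omega : t - 1 < 2 * k)]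
      by_cases ht : t < 2 * k
      · rw [gu_lo ht, show t - k = t - 1 - k + 1 by omega, pow_succ]
        nlinarith
      · rw [gu_hi hk (by omega), show t / 2 = k by omega, gu_lo (by omega), Nat.sub_self, pow_zero]
        have : 2 * q * (q ^ (t - 1 - k) / 2) = q ^ (t - 1 - k + 1) := by ring
        rw [this, show t - 1 - k + 1 = k by omega]
        linarith

/-- The upper bound: one infinite strategy (depending on `k`) has discrepancy at most `2 q` up to
time `2 k`, where `2 q ^ k = 1`. -/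
lemma upper_q {k : ℕ} {q : ℝ} (hk : 1 ≤ k) (hq : 0 < q) (hq1 : q ≤ 1) (hqk : 2 * q ^ k = 1) :
    ∃ S, IsInfStrategy S ∧ ∀ t, 1 ≤ t → t ≤ 2 * k → disc (S t) ≤ 2 * q := by
  have hg1 := gd_pos hk hq 1
  obtain ⟨S, hS, hl⟩ := realize (fun j => gd k q j / gd k q 1) (div_self hg1.ne')
    (fun j _ => div_pos (gd_pos hk hq j) hg1)
    (fun t ht => by
      rw [← add_div, ← gd_split hk ht])
  refine ⟨S, hS, fun t h1 h2 => disc_le_of_lens (hS.part t h1) h1 (hl t h1) ?_⟩
  intro i j hi1 hi2 hj1 hj2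
  rw [← mul_div_assoc]
  apply div_le_div_of_nonneg_right _ hg1.le
  calc gd k q i ≤ gd k q t := gd_anti hk hq hq1 hqk h1 hi1
    _ ≤ 2 * q * gd k q (2 * t - 1) := gd_disc hk hq hq1 hqk h1 h2
    _ ≤ 2 * q * gd k q j := by
      apply mul_le_mul_of_nonneg_left _ (by positivity)
      exact gd_anti hk hq hq1 hqk (by omega) (by omega)

lemma upper {n : ℕ} (hn : 1 ≤ n) :
    ∃ S, IsStrategy n S ∧ discUpTo S n ≤ (2 : ℝ) ^ (1 - 1 / ((⌈(n : ℝ) / 2⌉₊ : ℕ) : ℝ)) := by
  set k := ⌈(n : ℝ) / 2⌉₊ with hk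
  have hk1 : 1 ≤ k := Nat.one_le_iff_ne_zero.mpr (by
    rw [hk]; intro h
    rw [Nat.ceil_eq_zero] at h
    have : (1 : ℝ) ≤ n := by exact_mod_cast hn
    linarith)
  have hkn : n ≤ 2 * k := by
    have h := Nat.le_ceil ((n : ℝ) / 2)
    rw [← hk] at h
    have h2 : (n : ℝ) ≤ 2 * k := by linarith
    exact_mod_cast h2
  have hk0 : (k : ℝ) ≠ 0 := by positivity
  set q : ℝ := (2 : ℝ) ^ (-(1 / (k : ℝ))) with hq
  have hq0 : 0 < q := Real.rpow_pos_of_pos (by norm_num) _
  have hq1 : q ≤ 1 := Real.rpow_le_one_of_one_le_of_nonpos (by norm_num) (by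
    have : 0 ≤ 1 / (k : ℝ) := by positivity
    linarith)
  have hqk : 2 * q ^ k = 1 := by
    rw [hq, ← Real.rpow_natCast, ← Real.rpow_mul (by norm_num)]
    rw [neg_mul, one_div, inv_mul_cancel₀ hk0, Real.rpow_neg_one]
    norm_num
  obtain ⟨S, hS, h⟩ := upper_q hk1 hq0 hq1 hqk
  refine ⟨S, hS.toStrategy n, discUpTo_le hn fun t h1 h2 => ?_⟩
  have e : (2 : ℝ) ^ (1 - 1 / (k : ℝ)) = 2 * q := by
    rw [hq, sub_eq_add_neg, Real.rpow_add (by norm_num), Real.rpow_one]
  rw [e]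
  exact h t h1 (by omega)

/-- `disc(n)` is attained and equals `2 ^ (1 - 1 / ⌈n / 2⌉)`. -/
theorem exact_value {n : ℕ} (hn : 1 ≤ n) :
    IsLeast {r : ℝ | ∃ S : ℕ → Finset (ℝ × ℝ), IsStrategy n S ∧ r = discUpTo S n}
      ((2 : ℝ) ^ (1 - 1 / ((⌈(n : ℝ) / 2⌉₊ : ℕ) : ℝ))) := by
  obtain ⟨S, hS, h⟩ := upper hn
  refine ⟨⟨S, hS, le_antisymm (lower hS hn) h⟩, ?_⟩
  rintro r ⟨S, hS, rfl⟩
  exact lower hS hn

end Pool.Agent.H36.Split
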