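import Pool.Agent.H36.SplitSeq

namespace Pool.Agent.H36.Split

open Finset

/-- Abstract data of a strategy which always cuts the longest interval: `x t` is the length of the
interval cut at time `t`, its two pieces are cut at the times `τ t < σ t`. -/
structure CutSeq (x : ℕ → ℝ) (τ σ : ℕ → ℕ) : Prop where
  anti : ∀ t, 1 ≤ t → x (t + 1) < x t
  pos : ∀ t, 1 ≤ t → 0 < x t
  lt1 : ∀ t, 1 ≤ t → t < τ t
  lt2 : ∀ t, 1 ≤ t → τ t < σ t
  split : ∀ t, 1 ≤ t → x t = x (τ t) + x (σ t)
  surj : ∀ s, 2 ≤ s → ∃ t, 1 ≤ t ∧ t < s ∧ (s = τ t ∨ s = σ t)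

lemma one_eq_unit {S : ℕ → Finset (ℝ × ℝ)} (hS : IsInfStrategy S) : S 1 = {((0 : ℝ), (1 : ℝ))} := by
  have hc := hS.card 1 le_rfl
  rw [Finset.card_eq_one] at hc
  obtain ⟨⟨a, b⟩, hab⟩ := hc
  have hP := hS.part 1 le_rfl
  have hpos := hP.pos (a, b) (by rw [hab]; simp)
  have hu := hP.union
  rw [hab] at hu
  simp only [Finset.mem_singleton, Set.iUnion_iUnion_eq_left] at hu
  have h1 : (0 : ℝ) ∈ Set.Icc a b := by rw [hu]; simp
  have h2 : (1 : ℝ) ∈ Set.Icc a b := by rw [hu]; simp
  have h3 : a ∈ Set.Icc (0 : ℝ) 1 := by rw [← hu]; exact ⟨le_rfl, hpos.le⟩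
  have h4 : b ∈ Set.Icc (0 : ℝ) 1 := by rw [← hu]; exact ⟨hpos.le, le_rfl⟩
  have ha : a = 0 := le_antisymm h1.1 h3.1
  have hb : b = 1 := le_antisymm h4.2 h2.2
  rw [hab, ha, hb]

lemma sum_len {S : ℕ → Finset (ℝ × ℝ)} (hS : IsInfStrategy S) (t : ℕ) (ht : 1 ≤ t) :
    ∑ I ∈ S t, len I = 1 := by
  induction t, ht using Nat.le_induction with
  | base => rw [one_eq_unit hS]; simp [len]
  | succ t ht ih =>
    obtain ⟨a, b, c, hac, hcb, hab, hQ⟩ := hS.cut t ht
    have hP := hS.part t ht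
    rw [hQ, Finset.sum_insert (cut_notMem2 hP hac hcb hab),
      Finset.sum_insert (cut_notMem1 hP hac hcb hab)]
    rw [← Finset.add_sum_erase _ _ hab] at ih
    simp only [len] at ih ⊢
    linarith

/-- The data extracted from an infinite strategy all of whose discrepancies are below `2`. -/
lemma exists_cutSeq {S : ℕ → Finset (ℝ × ℝ)} (hS : IsInfStrategy S)
    (h2 : ∀ t, 1 ≤ t → disc (S t) < 2) :
    ∃ (x : ℕ → ℝ) (τ σ : ℕ → ℕ) (J : ℕ → ℝ × ℝ), CutSeq x τ σ ∧
      (∀ t, 1 ≤ t → x (t + 1) ≤ disc (S (t + 1)) * x (σ t)) ∧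
      (∀ t, 1 ≤ t → 1 ≤ t * x t) ∧
      (∀ t, 1 ≤ t → J t ∈ S t ∧ x t = len (J t)) ∧
      (∀ t, 1 ≤ t → ∀ I, I ∈ S (t + 1) ↔ (I ∈ S t ∧ I ≠ J t) ∨ I = J (τ t) ∨ I = J (σ t)) ∧
      (∀ t, 1 ≤ t → J (τ t) ∉ S t ∧ J (σ t) ∉ S t) := by
  classical
  have hc : ∀ i, ∃ a b c : ℝ, 1 ≤ i → (a < c ∧ c < b ∧ (a, b) ∈ S i ∧
      S (i + 1) = insert (a, c) (insert (c, b) ((S i).erase (a, b)))) := by
    intro i
    by_cases hi : 1 ≤ i
    · obtain ⟨a, b, c, h1, h2, h3, h4⟩ := hS.cut i hi
      exact ⟨a, b, c, fun _ => ⟨h1, h2, h3, h4⟩⟩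
    · exact ⟨0, 0, 0, fun h => absurd h hi⟩
  choose a b c hcut using hc
  set J : ℕ → ℝ × ℝ := fun i => (a i, b i) with hJ
  have hpos : ∀ t, 1 ≤ t → ∀ I ∈ S t, 0 < len I := fun t ht I hI => by
    have := (hS.part t ht).pos I hI
    simp only [len]; linarith
  have memJ : ∀ i, 1 ≤ i → J i ∈ S i := fun i hi => (hcut i hi).2.2.1
  have memS : ∀ i, 1 ≤ i → ∀ I, I ∈ S (i + 1) ↔
      (I ∈ S i ∧ I ≠ J i) ∨ I = (a i, c i) ∨ I = (c i, b i) := by
    intro i hi I
    rw [(hcut i hi).2.2.2, Finset.mem_insert, Finset.mem_insert, Finset.mem_erase]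
    constructor
    · rintro (h | h | h)
      · exact Or.inr (Or.inl h)
      · exact Or.inr (Or.inr h)
      · exact Or.inl ⟨h.2, h.1⟩
    · rintro (h | h | h)
      · exact Or.inr (Or.inr ⟨h.2, h.1⟩)
      · exact Or.inl h
      · exact Or.inr (Or.inl h)
  -- the cut interval is the strictly longest one
  have hmax : ∀ i, 1 ≤ i → ∀ I ∈ S i, I ≠ J i → len I < len (J i) := by
    intro i hi I hI hne
    have hI' : I ∈ S (i + 1) := (memS i hi I).mpr (Or.inl ⟨hI, hne⟩)
    have hL : (a i, c i) ∈ S (i + 1) := (memS i hi _).mpr (Or.inr (Or.inl rfl))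
    have hR : (c i, b i) ∈ S (i + 1) := (memS i hi _).mpr (Or.inr (Or.inr rfl))
    have hd := h2 (i + 1) (by omega)
    have e1 := len_le_disc_mul (hS.part (i + 1) (by omega)) hI' hL
    have e2 := len_le_disc_mul (hS.part (i + 1) (by omega)) hI' hR
    have p1 := hpos _ (by omega) _ hL
    have p2 := hpos _ (by omega) _ hR
    have e3 : len I < 2 * len (a i, c i) := by nlinarith
    have e4 : len I < 2 * len (c i, b i) := by nlinarith
    simp only [len, hJ] at e3 e4 ⊢
    linarith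
  have hle : ∀ i, 1 ≤ i → ∀ I ∈ S i, len I ≤ len (J i) := by
    intro i hi I hI
    by_cases h : I = J i
    · rw [h]
    · exact (hmax i hi I hI h).le
  set x : ℕ → ℝ := fun i => len (J i) with hx
  have xpos : ∀ i, 1 ≤ i → 0 < x i := fun i hi => hpos i hi _ (memJ i hi)
  have xanti : ∀ i, 1 ≤ i → x (i + 1) < x i := by
    intro i hi
    have h := memJ (i + 1) (by omega)
    rw [memS i hi] at h
    obtain ⟨hac, hcb, -, -⟩ := hcut i hi
    have e0 : x (i + 1) = len (J (i + 1)) := rfl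
    have e1 : x i = b i - a i := rfl
    rcases h with h | h | h
    · exact hmax i hi _ h.1 h.2
    · rw [e0, e1, h]; simp only [len]; linarith
    · rw [e0, e1, h]; simp only [len]; linarith
  have xanti' : ∀ i j, 1 ≤ i → i < j → x j < x i := by
    intro i j hi hij
    induction j, hij using Nat.le_induction with
    | base => exact xanti i hi
    | succ j hj ih => exact (xanti j (by omega)).trans ih
  have xinj : ∀ i j, 1 ≤ i → 1 ≤ j → x i = x j → i = j := by
    intro i j hi hj h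
    rcases lt_trichotomy i j with hlt | heq | hgt
    · exact absurd h (xanti' i j hi hlt).ne'
    · exact heq
    · exact absurd h (xanti' j i hj hgt).ne
  have xup : ∀ i, 1 ≤ i → x i * i ≤ 2 := by
    intro i hi
    have hs := sum_len hS i hi
    have : ∑ I ∈ S i, x i / 2 ≤ ∑ I ∈ S i, len I := by
      apply Finset.sum_le_sum
      intro I hI
      have e := len_le_disc_mul (hS.part i hi) (memJ i hi) hI
      have p := hpos i hi I hI
      have hd := h2 i hi
      simp only [hx]
      nlinarith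
    rw [Finset.sum_const, hS.card i hi, hs, nsmul_eq_mul] at this
    linarith
  have xlow : ∀ i, 1 ≤ i → 1 ≤ i * x i := by
    intro i hi
    have hs := sum_len hS i hi
    have : ∑ I ∈ S i, len I ≤ ∑ I ∈ S i, x i :=
      Finset.sum_le_sum fun I hI => hle i hi I hI
    rw [Finset.sum_const, hS.card i hi, hs, nsmul_eq_mul] at this
    exact this
  -- every interval is cut eventually
  have hev : ∀ t, 1 ≤ t → ∀ I ∈ S t, ∃ s, t ≤ s ∧ I = J s := by
    intro t ht I hI
    by_contra hcon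
    push Not at hcon
    have hall : ∀ s, t ≤ s → I ∈ S s := by
      intro s hs
      induction s, hs using Nat.le_induction with
      | base => exact hI
      | succ s hs ih => exact (memS s (by omega) I).mpr (Or.inl ⟨ih, hcon s hs⟩)
    have hp := hpos t ht I hI
    obtain ⟨n, hn⟩ := exists_nat_gt (2 / len I)
    have hn' : 2 < n * len I := by rwa [div_lt_iff₀ hp] at hn
    set m := max n t with hm
    have hmt : t ≤ m := le_max_right _ _
    have hmn : (n : ℝ) ≤ m := by exact_mod_cast le_max_left n t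
    have h1 := hle m (by omega) I (hall m hmt)
    have h3 := xup m (by omega)
    simp only [hx] at h3
    have hm0 : (0 : ℝ) ≤ m := Nat.cast_nonneg m
    nlinarith
  have hchild : ∀ t, ∃ s s' : ℕ, 1 ≤ t → (t < s ∧ s < s' ∧
      ((J s = (a t, c t) ∧ J s' = (c t, b t)) ∨ (J s = (c t, b t) ∧ J s' = (a t, c t)))) := by
    intro t
    by_cases ht : 1 ≤ t
    · obtain ⟨s1, h1, e1⟩ := hev (t + 1) (by omega) (a t, c t) ((memS t ht _).mpr (Or.inr (Or.inl rfl)))
      obtain ⟨s2, h3, e2⟩ := hev (t + 1) (by omega) (c t, b t) ((memS t ht _).mpr (Or.inr (Or.inr rfl)))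
      rcases lt_trichotomy s1 s2 with hlt | heq | hgt
      · exact ⟨s1, s2, fun _ => ⟨by omega, hlt, Or.inl ⟨e1.symm, e2.symm⟩⟩⟩
      · exfalso
        rw [← heq, ← e1, Prod.mk.injEq] at e2
        have := (hcut t ht).1
        linarith [e2.1]
      · exact ⟨s2, s1, fun _ => ⟨by omega, hgt, Or.inr ⟨e2.symm, e1.symm⟩⟩⟩
    · exact ⟨0, 0, fun h => absurd h ht⟩
  choose τ σ hτσ using hchild
  refine ⟨x, τ, σ, J, ⟨xanti, xpos, fun t ht => (hτσ t ht).1, fun t ht => (hτσ t ht).2.1, ?_, ?_⟩,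
    ?_, xlow, fun t ht => ⟨memJ t ht, rfl⟩, ?_, ?_⟩
  · intro t ht
    have e0 : x t = b t - a t := rfl
    have e1 : x (τ t) = len (J (τ t)) := rfl
    have e2 : x (σ t) = len (J (σ t)) := rfl
    rcases (hτσ t ht).2.2 with ⟨h1, h3⟩ | ⟨h1, h3⟩
    · rw [e0, e1, e2, h1, h3]; simp only [len]; ring
    · rw [e0, e1, e2, h1, h3]; simp only [len]; ring
  · intro s hs
    -- find the creation time
    have hns : J s ∉ S 1 := by
      intro h
      have h1 : S 1 = {J 1} := by
        rw [one_eq_unit hS] at h ⊢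
        have := memJ 1 le_rfl
        rw [one_eq_unit hS, Finset.mem_singleton] at this
        rw [this]
      rw [h1, Finset.mem_singleton] at h
      have : x s = x 1 := by show len (J s) = len (J 1); rw [h]
      have := xinj s 1 (by omega) le_rfl this
      omega
    have hex : ∃ t, 1 ≤ t ∧ t < s ∧ J s ∉ S t ∧ J s ∈ S (t + 1) := by
      by_contra hcon
      push Not at hcon
      have : ∀ t, 1 ≤ t → t ≤ s → J s ∉ S t := by
        intro t ht
        induction t, ht using Nat.le_induction with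
        | base => exact fun _ => hns
        | succ t ht ih => exact fun h => hcon t ht (by omega) (ih (by omega))
      exact this s (by omega) le_rfl (memJ s (by omega))
    obtain ⟨t, ht, hts, h1, h3⟩ := hex
    refine ⟨t, ht, hts, ?_⟩
    rw [memS t ht] at h3
    have hcases : J s = (a t, c t) ∨ J s = (c t, b t) := by
      rcases h3 with h3 | h3
      · exact absurd h3.1 h1
      · exact h3
    have ht1 := (hτσ t ht).1
    have ht2 := (hτσ t ht).2.1
    rcases (hτσ t ht).2.2 with ⟨h5, h6⟩ | ⟨h5, h6⟩ <;> rcases hcases with h4 | h4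
    · left; apply xinj s _ (by omega) (by omega); show len (J s) = len (J (τ t)); rw [h4, h5]
    · right; apply xinj s _ (by omega) (by omega); show len (J s) = len (J (σ t)); rw [h4, h6]
    · right; apply xinj s _ (by omega) (by omega); show len (J s) = len (J (σ t)); rw [h4, h6]
    · left; apply xinj s _ (by omega) (by omega); show len (J s) = len (J (τ t)); rw [h4, h5]
  · intro t ht
    have hσ : J (σ t) ∈ S (t + 1) := by
      rw [memS t ht]
      rcases (hτσ t ht).2.2 with ⟨h5, h6⟩ | ⟨h5, h6⟩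
      · exact Or.inr (Or.inr h6)
      · exact Or.inr (Or.inl h6)
    exact len_le_disc_mul (hS.part (t + 1) (by omega)) (memJ (t + 1) (by omega)) hσ
  · intro t ht I
    rw [memS t ht]
    rcases (hτσ t ht).2.2 with ⟨h5, h6⟩ | ⟨h5, h6⟩
    · rw [h5, h6]
    · rw [h5, h6]
      constructor
      · rintro (h | h | h)
        · exact Or.inl h
        · exact Or.inr (Or.inr h)
        · exact Or.inr (Or.inl h)
      · rintro (h | h | h)
        · exact Or.inl h
        · exact Or.inr (Or.inr h)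
        · exact Or.inr (Or.inl h)
  · intro t ht
    obtain ⟨hac, hcb, hab, -⟩ := hcut t ht
    have n1 := cut_notMem1 (hS.part t ht) hac hcb hab
    have n2 := cut_notMem2 (hS.part t ht) hac hcb hab
    have m1 : (c t, b t) ∉ S t := by
      intro h
      apply n1
      rw [Finset.mem_erase]
      refine ⟨?_, h⟩
      intro he
      rw [Prod.mk.injEq] at he
      linarith [he.1]
    have m2 : (a t, c t) ∉ S t := by
      intro h
      apply n2
      rw [Finset.mem_insert, Finset.mem_erase]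
      right
      refine ⟨?_, h⟩
      intro he
      rw [Prod.mk.injEq] at he
      linarith [he.2]
    rcases (hτσ t ht).2.2 with ⟨h5, h6⟩ | ⟨h5, h6⟩
    · rw [h5, h6]; exact ⟨m2, m1⟩
    · rw [h5, h6]; exact ⟨m1, m2⟩

end Pool.Agent.H36.Split
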